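import Pool.Agent.H17.BV.Defs

/-!
# BX library (Bombieri-Vinogradov with the error `N exp(-c (log N)^{1/20})`, moduli prime to one exceptional prime): shared definitions

`rh N = (log N)^{1/20}`.
-/

open Finset H69LB

namespace BVX

/-- `(log N)^{1/20}` -/
noncomputable def rh (N : ℕ) : ℝ := Real.log N ^ (1 / 20 : ℝ)

theorem rh_nonneg (N : ℕ) : 0 ≤ rh N := Real.rpow_nonneg (Real.log_natCast_nonneg N) _

theorem rh_pow (N : ℕ) : rh N ^ 20 = Real.log N := by
  unfold rh
  rw [← Real.rpow_natCast, ← Real.rpow_mul (Real.log_natCast_nonneg N)]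
  norm_num

theorem rh_tendsto : Filter.Tendsto (fun N : ℕ => rh N) Filter.atTop Filter.atTop :=
  (tendsto_rpow_atTop (by norm_num : (0 : ℝ) < 1 / 20)).comp
    (Real.tendsto_log_atTop.comp tendsto_natCast_atTop_atTop)

end BVX
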