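import Pool.Agent.H17.BX.Defs
import Pool.Agent.H17.BV.Lrg

/-!
# BX / LRX: the contribution of the conductors `> exp((log N)^{1/20})` (adapt `lrg_core` and `lrg` of `Pool/Agent/H17/BV/Lrg.lean`)

`ε ≤ 1/4` without loss (as in `lrg`). `η = ε/8`, OMG: `C^{ω(r)}/φ(r) ≤ C1 r^{-1+η}`; `lrg_XR` and DYD with `R1 = ⌊exp ρ⌋`, `ρ = rh N`, `R = ⌊N^{1/2-ε}⌋`
(`R1 ≤ R` for large `N`): the first term is `≤ 8 C1 (2 log N) K (log N)^7 N R1^{-1/2}`, `R1 ≥ exp ρ/2`, so `≤ C' (log N)^8 N exp(-ρ/2) ≤ N exp(-ρ/4)/2`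
(`(log N)^8 = ρ^160`), the others are `≤ C' (log N)^8 N^{1-3ε/16} ≤ N exp(-ρ/4)/2` for large `N` (`exp ρ ≤ N^{ε/100}`-type bounds, `ρ ≤ (3ε/64) log N`).
-/

open Finset H69LB

namespace BVX

open BVL

theorem lrx_ev (K : ℝ) : ∃ N0 : ℕ, ∀ N : ℕ, N0 ≤ N → K * rh N ^ 160 ≤ Real.exp (rh N / 4) := by
  have h1 := (isLittleO_pow_exp_pos_mul_atTop 160 (b := 1 / 4) (by norm_num)).bound
    (c := (|K| + 1)⁻¹) (by positivity)
  have h2 : ∀ᶠ N : ℕ in Filter.atTop, ‖rh N ^ 160‖ ≤ (|K| + 1)⁻¹ * ‖Real.exp (1 / 4 * rh N)‖ :=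
    rh_tendsto.eventually h1
  obtain ⟨N0, hN0⟩ := Filter.eventually_atTop.1 h2
  refine ⟨N0, fun N hN => ?_⟩
  have h3 := hN0 N hN
  have h4 : ‖Real.exp (1 / 4 * rh N)‖ = Real.exp (rh N / 4) := by
    rw [Real.norm_eq_abs, abs_of_nonneg (Real.exp_pos _).le]
    congr 1
    ring
  rw [h4] at h3
  have h5 : (0 : ℝ) < |K| + 1 := by positivity
  have h6 : (|K| + 1) * ‖rh N ^ 160‖ ≤ Real.exp (rh N / 4) := by
    calc (|K| + 1) * ‖rh N ^ 160‖ ≤ (|K| + 1) * ((|K| + 1)⁻¹ * Real.exp (rh N / 4)) :=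
          mul_le_mul_of_nonneg_left h3 h5.le
      _ = Real.exp (rh N / 4) := by
          rw [← mul_assoc, mul_inv_cancel₀ h5.ne', one_mul]
  have h7 : K * rh N ^ 160 ≤ |K| * ‖rh N ^ 160‖ := by
    calc K * rh N ^ 160 ≤ |K * rh N ^ 160| := le_abs_self _
      _ = |K| * ‖rh N ^ 160‖ := by rw [abs_mul, Real.norm_eq_abs]
  have h8 : 0 ≤ ‖rh N ^ 160‖ := norm_nonneg _
  nlinarith

theorem lrx_big (K : ℝ) : ∃ N0 : ℕ, ∀ N : ℕ, N0 ≤ N → K ≤ rh N :=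
  Filter.eventually_atTop.1 (rh_tendsto.eventually_ge_atTop K)

theorem lrx_core {ε : ℝ} (hε : 0 < ε) (hε1 : ε ≤ 1 / 4) {C : ℝ} (hC : 0 ≤ C) :
    ∃ N0 : ℕ, ∀ N : ℕ, N0 ≤ N →
    ∑ r ∈ (Icc 1 ⌊(N : ℝ) ^ (1 / 2 - ε)⌋₊).filter (fun r : ℕ => Real.exp (rh N) < (r : ℝ)),
      C ^ r.primeFactors.card / (Nat.totient r : ℝ) * XR N r ≤ N * Real.exp (-(rh N / 4)) := by
  obtain ⟨K, hK, hXR⟩ := lrg_XR hε hε1
  obtain ⟨C1, hC1, hom⟩ := omega_bound hC (η := ε / 8) (by linarith)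
  obtain ⟨N1, hN1⟩ := lrx_ev (288 * K * C1)
  obtain ⟨N2, hN2⟩ := lrx_big (max 1 (16 / (3 * ε)))
  refine ⟨max 2 (max N1 N2), ?_⟩
  intro N hN
  have hN2' : 2 ≤ N := le_trans (le_max_left _ _) hN
  have hNN1 : N1 ≤ N := le_trans (le_trans (le_max_left _ _) (le_max_right _ _)) hN
  have hNN2 : N2 ≤ N := le_trans (le_trans (le_max_right _ _) (le_max_right _ _)) hN
  have hx1 : (1 : ℝ) ≤ (N : ℝ) := by
    have : 1 ≤ N := by omega
    exact_mod_cast this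
  have hx0 : (0 : ℝ) < (N : ℝ) := by linarith
  have hLρ : rh N ^ 20 = Real.log N := rh_pow N
  set L : ℝ := Real.log N with hL
  set ρ : ℝ := rh N with hρ
  have hρ1 : 1 ≤ ρ := le_trans (le_max_left _ _) (hN2 N hNN2)
  have hρ0 : 0 < ρ := by linarith
  have hρ2 : 16 / (3 * ε) ≤ ρ := le_trans (le_max_right _ _) (hN2 N hNN2)
  have hL1 : 1 ≤ L := by
    rw [← hLρ]
    exact one_le_pow₀ hρ1
  have hL0 : 0 < L := by linarith
  have hbig : 288 * K * C1 * L ^ 8 ≤ Real.exp (ρ / 4) := by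
    have h1 := hN1 N hNN1
    have h2 : L ^ 8 = ρ ^ 160 := by
      rw [← hLρ, ← pow_mul]
    rw [h2]
    exact h1
  have hρL : ρ ≤ 3 * ε / 16 * L := by
    have h1 : ρ ^ 2 ≤ L := by
      rw [← hLρ]
      exact pow_le_pow_right₀ hρ1 (by norm_num)
    have h2 : 1 ≤ 3 * ε / 16 * ρ := by
      rw [div_le_iff₀ (by positivity)] at hρ2
      linarith
    have h3 : 0 ≤ 3 * ε / 16 := by positivity
    calc ρ = 1 * ρ := (one_mul ρ).symm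
      _ ≤ (3 * ε / 16 * ρ) * ρ := mul_le_mul_of_nonneg_right h2 hρ0.le
      _ = 3 * ε / 16 * ρ ^ 2 := by ring
      _ ≤ 3 * ε / 16 * L := mul_le_mul_of_nonneg_left h1 h3
  have hexpN : ∀ a : ℝ, (N : ℝ) ^ a = Real.exp (L * a) := fun a => Real.rpow_def_of_pos hx0 a
  have hexpρ : Real.exp ρ ≤ (N : ℝ) ^ (3 * ε / 16) := by
    rw [hexpN]
    apply Real.exp_le_exp.2
    linarith
  have hL4 : Real.exp ρ ≤ (N : ℝ) ^ (1 / 2 - ε) := by
    refine hexpρ.trans (Real.rpow_le_rpow_of_exponent_le hx1 ?_)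
    linarith
  set R1 : ℕ := ⌊Real.exp ρ⌋₊ with hR1
  set R : ℕ := ⌊(N : ℝ) ^ (1 / 2 - ε)⌋₊ with hR
  have hLB1 : (1 : ℝ) ≤ Real.exp ρ := Real.one_le_exp hρ0.le
  have hR11 : 1 ≤ R1 := Nat.floor_pos.mpr hLB1
  have hRR : R1 ≤ R := Nat.floor_le_floor hL4
  have hR0 : (1 : ℝ) ≤ (R : ℝ) := by
    have : 1 ≤ R := hR11.trans hRR
    exact_mod_cast this
  have hRle : (R : ℝ) ≤ (N : ℝ) ^ (1 / 2 - ε) := Nat.floor_le (by positivity)
  have hKL : 0 ≤ K * L ^ 7 := by positivity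
  -- step 1
  have s1 : ∑ r ∈ (Icc 1 R).filter (fun r : ℕ => Real.exp ρ < (r : ℝ)),
      C ^ r.primeFactors.card / (Nat.totient r : ℝ) * XR N r ≤
      C1 * ∑ r ∈ Ioc R1 R, (r : ℝ) ^ (-1 + ε / 8) * XR N r := by
    rw [Finset.mul_sum]
    have t1 : ∀ r ∈ (Icc 1 R).filter (fun r : ℕ => Real.exp ρ < (r : ℝ)),
        C ^ r.primeFactors.card / (Nat.totient r : ℝ) * XR N r ≤
        C1 * ((r : ℝ) ^ (-1 + ε / 8) * XR N r) := by
      intro r hr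
      rw [Finset.mem_filter, Finset.mem_Icc] at hr
      have := mul_le_mul_of_nonneg_right (hom r hr.1.1) (XR_nonneg N r)
      linarith
    refine (Finset.sum_le_sum t1).trans ?_
    apply Finset.sum_le_sum_of_subset_of_nonneg
    · intro r hr
      rw [Finset.mem_filter, Finset.mem_Icc] at hr
      rw [Finset.mem_Ioc]
      refine ⟨?_, hr.1.2⟩
      have h1 : (R1 : ℝ) ≤ Real.exp ρ := Nat.floor_le (Real.exp_pos _).le
      have h2 : (R1 : ℝ) < r := lt_of_le_of_lt h1 hr.2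
      exact_mod_cast h2
    · intro r _ _
      have h1 : (0 : ℝ) ≤ (r : ℝ) ^ (-1 + ε / 8) := Real.rpow_nonneg (Nat.cast_nonneg _) _
      exact mul_nonneg hC1 (mul_nonneg h1 (XR_nonneg N r))
  -- step 2
  have s2 := dyd (X := fun r => XR N r) (fun r => XR_nonneg N r)
    (a0 := K * L ^ 7 * N) (a1 := 4 * (K * L ^ 7) * (N : ℝ) ^ (1 - ε / 4))
    (a2 := K * L ^ 7 * (N : ℝ) ^ (1 / 2 : ℝ)) (a3 := K * L ^ 7 * (N : ℝ) ^ ε)
    (by positivity) (by positivity) (by positivity) (by positivity)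
    hR11 hRR (fun Q _ => hXR N hN2' Q) (η := ε / 8) (by linarith) (by linarith)
  -- step 3
  have s3 : 8 * (Real.log R / Real.log 2 + 1) ≤ 24 * L := by
    have h1 : Real.log R ≤ L := by
      apply Real.log_le_log (by linarith)
      calc (R : ℝ) ≤ (N : ℝ) ^ (1 / 2 - ε) := hRle
        _ ≤ (N : ℝ) ^ (1 : ℝ) := Real.rpow_le_rpow_of_exponent_le hx1 (by linarith)
        _ = N := Real.rpow_one _
    have h2 : (1 / 2 : ℝ) ≤ Real.log 2 := by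
      have := Real.log_two_gt_d9
      linarith
    have h3 : Real.log R / Real.log 2 ≤ 2 * L := by
      rw [div_le_iff₀ (by linarith)]
      nlinarith
    linarith
  have s4 : (R1 : ℝ) ^ (-1 + ε / 8) ≤ 2 * Real.exp (-(ρ / 2)) := by
    have h1 : Real.exp ρ / 2 ≤ (R1 : ℝ) := lrg_floor_half hLB1
    have h2 : 0 < Real.exp ρ / 2 := by positivity
    have h3 : (R1 : ℝ) ^ (-1 + ε / 8) ≤ (Real.exp ρ / 2) ^ (-1 + ε / 8) :=
      Real.rpow_le_rpow_of_nonpos h2 h1 (by linarith)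
    have h4 : (Real.exp ρ / 2) ^ (-1 + ε / 8) = Real.exp (ρ * (-1 + ε / 8)) * (1 / 2 : ℝ) ^ (-1 + ε / 8) := by
      rw [div_eq_mul_one_div, Real.mul_rpow (by positivity) (by norm_num), ← Real.exp_mul]
    have h5 : Real.exp (ρ * (-1 + ε / 8)) ≤ Real.exp (-(ρ / 2)) := by
      apply Real.exp_le_exp.2
      nlinarith
    have h6 : (1 / 2 : ℝ) ^ (-1 + ε / 8) ≤ 2 := by
      have h7 : (1 / 2 : ℝ) ^ (-1 + ε / 8) ≤ (1 / 2 : ℝ) ^ (-1 : ℝ) :=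
        Real.rpow_le_rpow_of_exponent_ge (by norm_num) (by norm_num) (by linarith)
      have h8 : (1 / 2 : ℝ) ^ (-1 : ℝ) = 2 := by
        rw [Real.rpow_neg_one]
        norm_num
      linarith
    calc (R1 : ℝ) ^ (-1 + ε / 8) ≤ Real.exp (ρ * (-1 + ε / 8)) * (1 / 2 : ℝ) ^ (-1 + ε / 8) := h3.trans h4.le
      _ ≤ Real.exp (-(ρ / 2)) * 2 := mul_le_mul h5 h6 (by positivity) (by positivity)
      _ = _ := by ring
  have s5 : (R : ℝ) ^ (ε / 8) ≤ (N : ℝ) ^ (ε / 16) := by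
    calc (R : ℝ) ^ (ε / 8) ≤ ((N : ℝ) ^ (1 / 2 - ε)) ^ (ε / 8) :=
          Real.rpow_le_rpow (by linarith) hRle (by linarith)
      _ = (N : ℝ) ^ ((1 / 2 - ε) * (ε / 8)) := by rw [← Real.rpow_mul hx0.le]
      _ ≤ (N : ℝ) ^ (ε / 16) := by
          apply Real.rpow_le_rpow_of_exponent_le hx1
          nlinarith
  have s6 : (N : ℝ) ^ (1 / 2 : ℝ) * (R : ℝ) ≤ (N : ℝ) ^ (1 - ε / 4) := by
    calc (N : ℝ) ^ (1 / 2 : ℝ) * (R : ℝ) ≤ (N : ℝ) ^ (1 / 2 : ℝ) * (N : ℝ) ^ (1 / 2 - ε) :=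
          mul_le_mul_of_nonneg_left hRle (by positivity)
      _ = (N : ℝ) ^ (1 - ε) := by
          rw [← Real.rpow_add hx0]
          congr 1
          ring
      _ ≤ (N : ℝ) ^ (1 - ε / 4) := Real.rpow_le_rpow_of_exponent_le hx1 (by linarith)
  have s7 : (N : ℝ) ^ ε * (R : ℝ) ^ 2 ≤ (N : ℝ) ^ (1 - ε / 4) := by
    have h1 : (R : ℝ) ^ 2 ≤ (N : ℝ) ^ (1 - 2 * ε) := by
      calc (R : ℝ) ^ 2 ≤ ((N : ℝ) ^ (1 / 2 - ε)) ^ 2 := pow_le_pow_left₀ (by linarith) hRle 2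
        _ = (N : ℝ) ^ (1 - 2 * ε) := by
            rw [← Real.rpow_natCast, ← Real.rpow_mul hx0.le]
            congr 1
            push_cast
            ring
    calc (N : ℝ) ^ ε * (R : ℝ) ^ 2 ≤ (N : ℝ) ^ ε * (N : ℝ) ^ (1 - 2 * ε) :=
          mul_le_mul_of_nonneg_left h1 (by positivity)
      _ = (N : ℝ) ^ (1 - ε) := by
          rw [← Real.rpow_add hx0]
          congr 1
          ring
      _ ≤ (N : ℝ) ^ (1 - ε / 4) := Real.rpow_le_rpow_of_exponent_le hx1 (by linarith)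
  have s8 : (R : ℝ) ^ (ε / 8) * (4 * (K * L ^ 7) * (N : ℝ) ^ (1 - ε / 4) +
      K * L ^ 7 * (N : ℝ) ^ (1 / 2 : ℝ) * R + K * L ^ 7 * (N : ℝ) ^ ε * R ^ 2) ≤
      6 * (K * L ^ 7) * (N : ℝ) ^ (1 - 3 * ε / 16) := by
    have h1 : 4 * (K * L ^ 7) * (N : ℝ) ^ (1 - ε / 4) +
      K * L ^ 7 * (N : ℝ) ^ (1 / 2 : ℝ) * R + K * L ^ 7 * (N : ℝ) ^ ε * R ^ 2 ≤
      6 * (K * L ^ 7) * (N : ℝ) ^ (1 - ε / 4) := by
      have h2 := mul_le_mul_of_nonneg_left s6 hKL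
      have h3 := mul_le_mul_of_nonneg_left s7 hKL
      have h4 : K * L ^ 7 * (N : ℝ) ^ (1 / 2 : ℝ) * R = K * L ^ 7 * ((N : ℝ) ^ (1 / 2 : ℝ) * R) := by ring
      have h5 : K * L ^ 7 * (N : ℝ) ^ ε * R ^ 2 = K * L ^ 7 * ((N : ℝ) ^ ε * R ^ 2) := by ring
      rw [h4, h5]
      linarith
    calc _ ≤ (N : ℝ) ^ (ε / 16) * (6 * (K * L ^ 7) * (N : ℝ) ^ (1 - ε / 4)) :=
          mul_le_mul s5 h1 (by positivity) (by positivity)
      _ = 6 * (K * L ^ 7) * ((N : ℝ) ^ (ε / 16) * (N : ℝ) ^ (1 - ε / 4)) := by ring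
      _ = _ := by
          rw [← Real.rpow_add hx0]
          congr 2
          ring
  have s9 : K * L ^ 7 * N * (R1 : ℝ) ^ (-1 + ε / 8) ≤ 2 * (K * L ^ 7) * N * Real.exp (-(ρ / 2)) := by
    have := mul_le_mul_of_nonneg_left s4 (show 0 ≤ K * L ^ 7 * N by positivity)
    linarith
  -- total
  have s10 : ∑ r ∈ Ioc R1 R, (r : ℝ) ^ (-1 + ε / 8) * XR N r ≤
      24 * L * (2 * (K * L ^ 7) * N * Real.exp (-(ρ / 2)) + 6 * (K * L ^ 7) * (N : ℝ) ^ (1 - 3 * ε / 16)) := by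
    refine s2.trans ?_
    apply mul_le_mul s3 (add_le_add s9 s8) (by positivity) (by positivity)
  have e4 : Real.exp (-(ρ / 2)) = Real.exp (-(ρ / 4)) * (Real.exp (ρ / 4))⁻¹ := by
    rw [← Real.exp_neg, ← Real.exp_add]
    congr 1
    ring
  have hKC : 0 ≤ K * C1 * L ^ 8 := by positivity
  have s12 : 48 * K * C1 * L ^ 8 * N * Real.exp (-(ρ / 2)) ≤ N * Real.exp (-(ρ / 4)) / 2 := by
    have h2 : 48 * K * C1 * L ^ 8 * (Real.exp (ρ / 4))⁻¹ ≤ 1 / 2 := by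
      rw [← div_eq_mul_inv, div_le_iff₀ (Real.exp_pos _)]
      nlinarith
    have h1 : 0 < (N : ℝ) * Real.exp (-(ρ / 4)) := by positivity
    rw [e4]
    calc 48 * K * C1 * L ^ 8 * N * (Real.exp (-(ρ / 4)) * (Real.exp (ρ / 4))⁻¹) =
          (48 * K * C1 * L ^ 8 * (Real.exp (ρ / 4))⁻¹) * (N * Real.exp (-(ρ / 4))) := by ring
      _ ≤ 1 / 2 * (N * Real.exp (-(ρ / 4))) := mul_le_mul_of_nonneg_right h2 h1.le
      _ = _ := by ring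
  have s13 : 144 * K * C1 * L ^ 8 * (N : ℝ) ^ (1 - 3 * ε / 16) ≤ N * Real.exp (-(ρ / 4)) / 2 := by
    have h2 : (N : ℝ) ^ (1 - 3 * ε / 16) = N * (N : ℝ) ^ (-(3 * ε / 16)) := by
      rw [sub_eq_add_neg, Real.rpow_add hx0, Real.rpow_one]
    have h3 : (N : ℝ) ^ (-(3 * ε / 16)) ≤ Real.exp (-(ρ / 2)) := by
      rw [hexpN]
      apply Real.exp_le_exp.2
      nlinarith
    have h4 : 144 * K * C1 * L ^ 8 * (Real.exp (ρ / 4))⁻¹ ≤ 1 / 2 := by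
      rw [← div_eq_mul_inv, div_le_iff₀ (Real.exp_pos _)]
      nlinarith
    have h5 : 0 < (N : ℝ) * Real.exp (-(ρ / 4)) := by positivity
    rw [h2]
    calc 144 * K * C1 * L ^ 8 * (N * (N : ℝ) ^ (-(3 * ε / 16)))
        ≤ 144 * K * C1 * L ^ 8 * (N * Real.exp (-(ρ / 2))) := by
          apply mul_le_mul_of_nonneg_left (mul_le_mul_of_nonneg_left h3 hx0.le) (by positivity)
      _ = (144 * K * C1 * L ^ 8 * (Real.exp (ρ / 4))⁻¹) * (N * Real.exp (-(ρ / 4))) := by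
          rw [e4]
          ring
      _ ≤ 1 / 2 * (N * Real.exp (-(ρ / 4))) := mul_le_mul_of_nonneg_right h4 h5.le
      _ = _ := by ring
  calc ∑ r ∈ (Icc 1 R).filter (fun r : ℕ => Real.exp ρ < (r : ℝ)),
      C ^ r.primeFactors.card / (Nat.totient r : ℝ) * XR N r ≤
      C1 * ∑ r ∈ Ioc R1 R, (r : ℝ) ^ (-1 + ε / 8) * XR N r := s1
    _ ≤ C1 * (24 * L * (2 * (K * L ^ 7) * N * Real.exp (-(ρ / 2)) +
        6 * (K * L ^ 7) * (N : ℝ) ^ (1 - 3 * ε / 16))) := mul_le_mul_of_nonneg_left s10 hC1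
    _ = 48 * K * C1 * L ^ 8 * N * Real.exp (-(ρ / 2)) +
        144 * K * C1 * L ^ 8 * (N : ℝ) ^ (1 - 3 * ε / 16) := by ring
    _ ≤ N * Real.exp (-(ρ / 4)) / 2 + N * Real.exp (-(ρ / 4)) / 2 := add_le_add s12 s13
    _ = N * Real.exp (-(ρ / 4)) := by ring

theorem lrx {ε : ℝ} (hε : 0 < ε) {C : ℝ} (hC : 0 ≤ C) : ∃ N0 : ℕ, ∀ N : ℕ, N0 ≤ N →
    ∑ r ∈ (Icc 1 ⌊(N : ℝ) ^ (1 / 2 - ε)⌋₊).filter (fun r : ℕ => Real.exp (rh N) < (r : ℝ)),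
      C ^ r.primeFactors.card / (Nat.totient r : ℝ) * XR N r ≤ N * Real.exp (-(rh N / 4)) := by
  have he0 : 0 < min ε (1 / 4) := lt_min hε (by norm_num)
  obtain ⟨N0, h⟩ := lrx_core he0 (min_le_right _ _) hC
  refine ⟨max 1 N0, fun N hN => ?_⟩
  have hN1' : 1 ≤ N := le_trans (le_max_left _ _) hN
  have hN0' : N0 ≤ N := le_trans (le_max_right _ _) hN
  have hx1 : (1 : ℝ) ≤ (N : ℝ) := by exact_mod_cast hN1'
  refine le_trans ?_ (h N hN0')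
  apply Finset.sum_le_sum_of_subset_of_nonneg
  · intro r hr
    rw [Finset.mem_filter, Finset.mem_Icc] at hr ⊢
    refine ⟨⟨hr.1.1, hr.1.2.trans (Nat.floor_le_floor ?_)⟩, hr.2⟩
    apply Real.rpow_le_rpow_of_exponent_le hx1
    have := min_le_left ε (1 / 4)
    linarith
  · intro r _ _
    exact mul_nonneg (by positivity) (XR_nonneg N r)

end BVX
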