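import Pool.Agent.H17.BV.Sie

/-!
# BX / PGE: Page's theorem in the form: at most one primitive real character has a small `L(1,χ)` (from EST, LUP, SIEA, SIEB)

`4 ≤ exp L`, so `L ≥ 1`. Let `ce` be the constant of `est`, `β0 = 1 - 1/(8L) ≥ 7/8`.
Case A: `L(σ,χ1) ≠ 0` for `σ ∈ [β0,1)`. As in SIEA (`sieA_pos`, `sieA_zeta`, `sieA_im`, `sieA_series`, `Lcirc`): `est` with `P = LFunction χ1`,
`a = zetaMul χ1`, `B = 29 q1`, `β = β0` gives `ce/(8L) (29 q1)^{-1/(2L)} ≤ ‖L(1,χ1)‖`; `q1 ≤ exp L`, so `(29 q1)^{1/(2L)} ≤ 29^{1/2} e^{1/2} ≤ 10`.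
Case B: `LFunction χ1 β = 0` for some `β ∈ [β0,1)`. `χ12 = changeLevel χ1 * changeLevel χ2` (modulus `q1 q2`) is `≠ 1`: otherwise `q1 = q2` by
the argument of `sieB_triv` (`h4` there). As in `sieB_main`: `est` with `P = L(·,χ1) L(·,χ2) L(·,χ12)`, `a = a4 χ1 χ2`,
`B = 29 q1 * 29 q2 * 29 q1 q2 = 29^3 (q1 q2)^2`: `ce (1-β) B^{-4(1-β)} ≤ ‖L(1,χ1)‖ ‖L(1,χ2)‖ ‖L(1,χ12)‖`. `4(1-β) ≤ 1/(2L)`, `q1 q2 ≤ exp L`:
`B^{4(1-β)} ≤ 29^{3/2} e ≤ 500`. `‖L(1,χ1)‖ = ‖L(1,χ1) - L(β,χ1)‖ ≤ (1-β) 120 L^2` (mean value inequality on the segment `[β,1]`, `LupD` with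
`q1 (0+4) ≤ exp L`, `β ≥ 1 - 1/(4L)`), `‖L(1,χ12)‖ ≤ 30 L` (`Lup`, `q1 q2 (0+3) ≤ exp L`). Hence `‖L(1,χ2)‖ ≥ ce/(500*3600 L^3)`.
-/

open scoped ComplexOrder

namespace BVX

open DirichletCharacter BVL

theorem Pge_pow {B K L t m a b : ℝ} (hB : 0 < B) (hK : 1 ≤ K) (hBK : B ≤ K * Real.exp (m * L)) (ht0 : 0 ≤ t)
    (ht : t ≤ a) (htL : m * L * t ≤ b) : 1 / (K ^ a * Real.exp b) ≤ B ^ (-t) := by
  have hK0 : 0 < K := by linarith
  have h1 : B ^ t ≤ K ^ a * Real.exp b := by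
    calc B ^ t ≤ (K * Real.exp (m * L)) ^ t := Real.rpow_le_rpow hB.le hBK ht0
      _ = K ^ t * Real.exp (m * L * t) := by
          rw [Real.mul_rpow hK0.le (Real.exp_pos _).le, ← Real.exp_mul]
      _ ≤ K ^ a * Real.exp b := by
          apply mul_le_mul (Real.rpow_le_rpow_of_exponent_le hK ht) (Real.exp_le_exp.2 htL)
            (Real.exp_pos _).le (by positivity)
  rw [Real.rpow_neg hB.le, one_div]
  exact inv_anti₀ (by positivity) h1

theorem Pge_c1 : (29 : ℝ) ^ (1 / 2 : ℝ) * Real.exp (1 / 2) ≤ 10 := by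
  have h1 : (29 : ℝ) ^ (1 / 2 : ℝ) ≤ 6 := by
    rw [← Real.sqrt_eq_rpow]
    rw [Real.sqrt_le_left (by norm_num)]
    norm_num
  have h2 := Lup_exp_half
  have h3 : 0 < (29 : ℝ) ^ (1 / 2 : ℝ) := by positivity
  have h4 := Real.exp_pos (1 / 2 : ℝ)
  nlinarith

theorem Pge_c2 : (29 ^ 3 : ℝ) ^ (1 / 2 : ℝ) * Real.exp 1 ≤ 500 := by
  have h1 : (29 ^ 3 : ℝ) ^ (1 / 2 : ℝ) ≤ 157 := by
    rw [← Real.sqrt_eq_rpow]
    rw [Real.sqrt_le_left (by norm_num)]
    norm_num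
  have h2 := Real.exp_one_lt_d9
  have h3 : 0 < (29 ^ 3 : ℝ) ^ (1 / 2 : ℝ) := by positivity
  have h4 := Real.exp_pos (1 : ℝ)
  nlinarith

theorem Pge_ne {q1 q2 : ℕ} [NeZero q1] [NeZero q2] {χ1 : DirichletCharacter ℂ q1} {χ2 : DirichletCharacter ℂ q2}
    (hp : χ1.IsPrimitive) (hp2 : χ2.IsPrimitive) (hsq : χ1 ^ 2 = 1) (hne : q1 ≠ q2) :
    changeLevel (dvd_mul_right q1 q2) χ1 * changeLevel (dvd_mul_left q2 q1) χ2 ≠ 1 := by
  intro h
  have : NeZero (q1 * q2) := ⟨mul_ne_zero (NeZero.ne _) (NeZero.ne _)⟩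
  have h2 : changeLevel (dvd_mul_right q1 q2) χ1 * changeLevel (dvd_mul_right q1 q2) χ1 = 1 := by
    rw [← map_mul, ← pow_two, hsq, map_one]
  have h3 : changeLevel (dvd_mul_left q2 q1) χ2 = changeLevel (dvd_mul_right q1 q2) χ1 :=
    mul_left_cancel (h.trans h2.symm)
  apply hne
  have e1 := conductor_changeLevel χ2 (dvd_mul_left q2 q1)
  have e2 := conductor_changeLevel χ1 (dvd_mul_right q1 q2)
  rw [h3, e2] at e1
  rw [(isPrimitive_def _).1 hp, (isPrimitive_def _).1 hp2] at e1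
  exact e1

theorem Pge_mv {q : ℕ} [NeZero q] {χ : DirichletCharacter ℂ q} (hχ : χ ≠ 1) {β L : ℝ}
    (hL : (q : ℝ) * 4 ≤ Real.exp L) (h1 : 1 - 1 / (4 * L) ≤ β) (h2 : β < 1) (h0 : LFunction χ β = 0) :
    ‖LFunction χ 1‖ ≤ (1 - β) * (120 * L ^ 2) := by
  have hseg : ∀ z ∈ segment ℝ (β : ℂ) 1, z.im = 0 ∧ β ≤ z.re ∧ z.re ≤ 1 := by
    rintro z ⟨a, b, ha, hb, hab, rfl⟩
    refine ⟨by simp, ?_, ?_⟩
    · simp only [Complex.add_re, Complex.real_smul, Complex.re_ofReal_mul, Complex.ofReal_re, Complex.one_re]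
      nlinarith
    · simp only [Complex.add_re, Complex.real_smul, Complex.re_ofReal_mul, Complex.ofReal_re, Complex.one_re]
      nlinarith
  have hmv := Convex.norm_image_sub_le_of_norm_deriv_le (f := LFunction χ) (C := 120 * L ^ 2)
    (s := segment ℝ (β : ℂ) 1) (x := (β : ℂ)) (y := 1)
    (fun z _ => (differentiable_LFunction hχ) z)
    (fun z hz => by
      obtain ⟨e1, e2, e3⟩ := hseg z hz
      refine LupD hχ ?_ (h1.trans e2) (by linarith)
      rw [e1, abs_zero, zero_add]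
      exact hL)
    (convex_segment _ _) (left_mem_segment _ _ _) (right_mem_segment _ _ _)
  rw [h0, sub_zero] at hmv
  refine hmv.trans (le_of_eq ?_)
  have : ‖(1 : ℂ) - β‖ = 1 - β := by
    have e : (1 : ℂ) - β = ((1 - β : ℝ) : ℂ) := by push_cast; rfl
    rw [e, Complex.norm_real, Real.norm_eq_abs, abs_of_pos (by linarith)]
  rw [this]
  ring

theorem page : ∃ c : ℝ, 0 < c ∧ c ≤ 1 ∧ ∀ (L : ℝ) (q1 q2 : ℕ) [NeZero q1] [NeZero q2]
    (χ1 : DirichletCharacter ℂ q1) (χ2 : DirichletCharacter ℂ q2), χ1.IsPrimitive → χ2.IsPrimitive → χ1 ≠ 1 → χ2 ≠ 1 →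
    χ1 ^ 2 = 1 → χ2 ^ 2 = 1 → q1 ≠ q2 → 4 * ((q1 : ℝ) * q2) ≤ Real.exp L →
    c / L ^ 3 ≤ ‖LFunction χ1 1‖ ∨ c / L ^ 3 ≤ ‖LFunction χ2 1‖ := by
  obtain ⟨ce, hce, hest⟩ := est
  refine ⟨min 1 (ce / 1800000), lt_min one_pos (by positivity), min_le_left _ _, ?_⟩
  intro L q1 q2 _ _ χ1 χ2 hp1 hp2 hne1 hne2 hsq1 hsq2 hq hL
  have : NeZero (q1 * q2) := ⟨mul_ne_zero (NeZero.ne _) (NeZero.ne _)⟩
  set c : ℝ := min 1 (ce / 1800000) with hc
  have hc1 : c ≤ ce / 1800000 := min_le_right _ _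
  have hc0 : 0 < c := lt_min one_pos (by positivity)
  have hq1 : (1 : ℝ) ≤ q1 := by exact_mod_cast Nat.one_le_iff_ne_zero.2 (NeZero.ne q1)
  have hq2 : (1 : ℝ) ≤ q2 := by exact_mod_cast Nat.one_le_iff_ne_zero.2 (NeZero.ne q2)
  have hqq : (1 : ℝ) ≤ (q1 : ℝ) * q2 := by nlinarith
  have hq1L : (q1 : ℝ) * 4 ≤ Real.exp L := by nlinarith
  obtain ⟨hL1, -⟩ := Lup_L1 (q := q1) (t := 0) (c := 4) (L := L) (by norm_num) (by
    rw [abs_zero, zero_add]
    exact hq1L)
  have hLp : 0 < L := by linarith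
  have hL3 : 0 < L ^ 3 := by positivity
  set β0 : ℝ := 1 - 1 / (8 * L) with hβ0
  have h8L : 1 / (8 * L) ≤ 1 / 8 := by
    apply one_div_le_one_div_of_le (by norm_num)
    linarith
  have h8L0 : 0 < 1 / (8 * L) := by positivity
  have hβ0' : 7 / 8 ≤ β0 := by
    rw [hβ0]
    linarith
  have hβ01 : β0 < 1 := by
    rw [hβ0]
    linarith
  by_cases hA : ∀ σ : ℝ, β0 ≤ σ → σ < 1 → LFunction χ1 σ ≠ 0
  · left
    have hB : (1 : ℝ) ≤ 29 * q1 := by linarith
    have hre : (riemannZeta β0 * LFunction χ1 β0).re ≤ 0 := by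
      rw [Complex.mul_re, sieA_im hne1 hsq1 (by linarith), mul_zero, sub_zero]
      exact mul_nonpos_of_nonpos_of_nonneg (sieA_zeta hβ0' hβ01) (sieA_pos hne1 hsq1 hβ0' hβ01 hA).le
    have h := hest (LFunction χ1) (fun n => χ1.zetaMul n) (29 * q1) (differentiable_LFunction hne1)
      (fun n => zetaMul_nonneg hsq1 n) χ1.isMultiplicative_zetaMul.map_one
      (fun s hs => sieA_series χ1 hs) hB (fun s hs => Lcirc hne1 hs) β0 hβ0' hβ01 hre
    have hpow := Pge_pow (B := 29 * (q1 : ℝ)) (K := 29) (L := L) (t := 4 * (1 - β0)) (m := 1) (a := 1 / 2)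
      (b := 1 / 2) (by linarith) (by norm_num) (by rw [one_mul]; nlinarith) (by linarith)
      (by rw [hβ0]; linarith) (by
        rw [hβ0]
        have : 1 * L * (4 * (1 - (1 - 1 / (8 * L)))) = 1 / 2 := by field_simp; ring
        rw [this])
    have h10 : (1 : ℝ) / 10 ≤ (29 * (q1 : ℝ)) ^ (-(4 * (1 - β0))) := by
      refine le_trans ?_ hpow
      exact one_div_le_one_div_of_le (by positivity) Pge_c1
    have hfin : c / L ^ 3 ≤ ce * (1 - β0) * (1 / 10) := by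
      have e1 : ce * (1 - β0) * (1 / 10) = (ce / 80) / L := by
        rw [hβ0]
        field_simp
        ring
      rw [e1]
      have e2 : c / L ^ 3 ≤ c / L := by
        apply div_le_div_of_nonneg_left hc0.le hLp
        calc L = L ^ 1 := (pow_one L).symm
          _ ≤ L ^ 3 := pow_le_pow_right₀ hL1 (by norm_num)
      refine e2.trans (div_le_div_of_nonneg_right ?_ hLp.le)
      refine hc1.trans ?_
      apply div_le_div_of_nonneg_left hce.le <;> norm_num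
    refine hfin.trans (le_trans ?_ h)
    have : 0 ≤ ce * (1 - β0) := mul_nonneg hce.le (by linarith)
    exact mul_le_mul_of_nonneg_left h10 this
  · right
    push Not at hA
    obtain ⟨β, hβ1, hβ2, h0⟩ := hA
    have h12 := Pge_ne hp1 hp2 hsq1 hq
    set χ12 := changeLevel (dvd_mul_right q1 q2) χ1 * changeLevel (dvd_mul_left q2 q1) χ2 with hχ12
    have hβ78 : 7 / 8 ≤ β := hβ0'.trans hβ1
    have hδ : 0 < 1 - β := by linarith
    have hδ2 : 1 - β ≤ 1 / (8 * L) := by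
      rw [hβ0] at hβ1
      linarith
    have hdiff : Differentiable ℂ (fun s => LFunction χ1 s * LFunction χ2 s * LFunction χ12 s) :=
      ((differentiable_LFunction hne1).mul (differentiable_LFunction hne2)).mul (differentiable_LFunction h12)
    set B : ℝ := 29 ^ 3 * ((q1 : ℝ) * q2) ^ 2 with hBdef
    have hB : ∀ s : ℂ, ‖s - 2‖ ≤ 3 / 2 →
        ‖LFunction χ1 s * LFunction χ2 s * LFunction χ12 s‖ ≤ B := by
      intro s hs
      rw [norm_mul, norm_mul]
      have a1 := Lcirc hne1 hs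
      have a2 := Lcirc hne2 hs
      have a3 := Lcirc h12 hs
      calc ‖LFunction χ1 s‖ * ‖LFunction χ2 s‖ * ‖LFunction χ12 s‖
          ≤ (29 * q1) * (29 * q2) * (29 * (q1 * q2 : ℕ)) := by
            apply mul_le_mul (mul_le_mul a1 a2 (norm_nonneg _) (by positivity)) a3 (norm_nonneg _) (by positivity)
        _ = B := by
            rw [hBdef]; push_cast; ring
    have hqq2 : (1 : ℝ) ≤ ((q1 : ℝ) * q2) ^ 2 := one_le_pow₀ hqq
    have hB1 : 1 ≤ B := by
      rw [hBdef]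
      nlinarith
    have hzero : (riemannZeta β * (LFunction χ1 β * LFunction χ2 β * LFunction χ12 β)).re ≤ 0 := by
      rw [h0]; simp
    have hmain := hest (fun s => LFunction χ1 s * LFunction χ2 s * LFunction χ12 s) (fun n => a4 χ1 χ2 n)
      B hdiff (fun n => a4_nonneg hsq1 hsq2 n) (a4_one χ1 χ2) (fun s hs => a4_series χ1 χ2 hs) hB1 hB β hβ78 hβ2
      hzero
    simp only [norm_mul] at hmain
    have hBe : B ≤ 29 ^ 3 * Real.exp (2 * L) := by
      rw [hBdef, two_mul, Real.exp_add]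
      have h5 : (q1 : ℝ) * q2 ≤ Real.exp L := by linarith
      have h6 : ((q1 : ℝ) * q2) ^ 2 ≤ Real.exp L * Real.exp L := by
        rw [sq]
        exact mul_le_mul h5 h5 (by positivity) (Real.exp_pos _).le
      linarith
    have hpow := Pge_pow (B := B) (K := 29 ^ 3) (L := L) (t := 4 * (1 - β)) (m := 2) (a := 1 / 2)
      (b := 1) (by linarith) (by norm_num) hBe (by linarith)
      (by linarith) (by
        have e1 : 2 * L * (4 * (1 - β)) ≤ 2 * L * (4 * (1 / (8 * L))) := by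
          apply mul_le_mul_of_nonneg_left _ (by positivity)
          linarith
        have e2 : 2 * L * (4 * (1 / (8 * L))) = 1 := by field_simp; norm_num
        linarith)
    have h500 : (1 : ℝ) / 500 ≤ B ^ (-(4 * (1 - β))) := by
      refine le_trans ?_ hpow
      exact one_div_le_one_div_of_le (by positivity) Pge_c2
    have hY : ‖LFunction χ12 1‖ ≤ 30 * L := by
      refine Lup h12 (s := 1) ?_ ?_ ?_
      · simp only [Complex.one_im, abs_zero, zero_add]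
        push_cast
        linarith
      · simp only [Complex.one_re]
        have : 0 < 1 / (2 * L) := by positivity
        linarith
      · simp only [Complex.one_re]; norm_num
    have hX : ‖LFunction χ1 1‖ ≤ (1 - β) * (120 * L ^ 2) := by
      refine Pge_mv hne1 hq1L ?_ hβ2 h0
      refine le_trans ?_ hβ1
      rw [hβ0]
      have : 1 / (8 * L) ≤ 1 / (4 * L) := by
        apply one_div_le_one_div_of_le (by positivity)
        linarith
      linarith
    have hZ : 0 ≤ ‖LFunction χ2 1‖ := norm_nonneg _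
    set Z := ‖LFunction χ2 1‖ with hZdef
    have hchain : ce * (1 - β) * (1 / 500) ≤ (1 - β) * (120 * L ^ 2) * Z * (30 * L) := by
      calc ce * (1 - β) * (1 / 500) ≤ ce * (1 - β) * B ^ (-(4 * (1 - β))) :=
            mul_le_mul_of_nonneg_left h500 (by positivity)
        _ ≤ ‖LFunction χ1 1‖ * Z * ‖LFunction χ12 1‖ := hmain
        _ ≤ (1 - β) * (120 * L ^ 2) * Z * (30 * L) := by
            apply mul_le_mul _ hY (norm_nonneg _) (by positivity)
            exact mul_le_mul_of_nonneg_right hX hZ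
    rw [div_le_iff₀ hL3]
    have h9 : ce * (1 / 500) ≤ 3600 * L ^ 3 * Z := by
      have h10 : (1 - β) * (ce * (1 / 500)) ≤ (1 - β) * (3600 * L ^ 3 * Z) := by
        calc (1 - β) * (ce * (1 / 500)) = ce * (1 - β) * (1 / 500) := by ring
          _ ≤ _ := hchain
          _ = (1 - β) * (3600 * L ^ 3 * Z) := by ring
      exact le_of_mul_le_mul_left h10 hδ
    calc c ≤ ce / 1800000 := hc1
      _ = (ce * (1 / 500)) / 3600 := by ring
      _ ≤ (3600 * L ^ 3 * Z) / 3600 := by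
          apply div_le_div_of_nonneg_right h9 (by norm_num)
      _ = Z * L ^ 3 := by ring

end BVX
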