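import Pool.Agent.H17.BX.Thx
import Pool.Agent.H17.BV.Pii

/-!
# BX / PIX: the same for `π` (adapt `bv_pi` of `Pool/Agent/H17/BV/Pii.lean`; from THX)
-/

open Finset H69LB

namespace BVX

open BVL

theorem bvx_pi {ε : ℝ} (hε : 0 < ε) (C : ℝ) : ∃ N0 : ℕ, ∀ N : ℕ, N0 ≤ N → ∃ P : ℕ, P.Prime ∧ (P : ℝ) ≤ Real.exp (rh N) ∧ ∃ E : ℕ → ℝ, (∀ q, 0 ≤ E q) ∧
    (∀ q : ℕ, 1 ≤ q → (q : ℝ) ≤ (N : ℝ) ^ (1 / 2 - ε) → ¬ P ∣ q → ∀ a : ℕ, Nat.Coprime a q → ∀ y : ℕ, 2 ≤ y → y ≤ N →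
      |((((Icc 1 y).filter (fun p => p.Prime ∧ p ≡ a [MOD q])).card : ℕ) : ℝ) -
        Pool.Agent.H17.ZB.Li y / (Nat.totient q : ℝ)| ≤ E q) ∧
    ∑ q ∈ (Icc 1 ⌊(N : ℝ) ^ (1 / 2 - ε)⌋₊).filter (fun q => ¬ P ∣ q), |C| ^ q.primeFactors.card * E q ≤
      N * Real.exp (-(rh N / 12)) := by
  obtain ⟨N1, h1⟩ := bvx_theta hε C
  obtain ⟨C1, hC1, h2⟩ := bv_pi_small C
  have hev : ∀ᶠ N : ℕ in Filter.atTop, max 120 (6 * Real.log (8 * C1 + 1)) ≤ rh N :=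
    rh_tendsto.eventually_ge_atTop _
  obtain ⟨N2, hN2⟩ := Filter.eventually_atTop.mp hev
  refine ⟨max (max N1 N2) 2, fun N hN => ?_⟩
  have hNN1 : N1 ≤ N := (le_max_left _ _).trans ((le_max_left _ _).trans hN)
  have hNN2 : N2 ≤ N := (le_max_right _ _).trans ((le_max_left _ _).trans hN)
  have hN2' : 2 ≤ N := (le_max_right _ _).trans hN
  obtain ⟨P, hP, hPs, E, hE0, hE1, hE2⟩ := h1 N hNN1
  have h3 := hN2 N hNN2
  have hρ1 : 120 ≤ rh N := (le_max_left _ _).trans h3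
  have hρ2 : 6 * Real.log (8 * C1 + 1) ≤ rh N := (le_max_right _ _).trans h3
  have hNpos : (0 : ℝ) < N := by exact_mod_cast (by omega : 0 < N)
  refine ⟨P, hP, hPs, fun q => 2 * E q + 4, fun q => by have := hE0 q; linarith, ?_, ?_⟩
  · intro q hq hqz hPq a ha y hy hyN
    exact bv_pi_one hq hy (hE0 q) fun n hn => hE1 q hq hqz hPq a ha n (hn.trans hyN)
  · have h5 : ∑ q ∈ (Icc 1 ⌊(N : ℝ) ^ (1 / 2 - ε)⌋₊).filter (fun q => ¬ P ∣ q),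
          |C| ^ q.primeFactors.card * (2 * E q + 4) =
        2 * ∑ q ∈ (Icc 1 ⌊(N : ℝ) ^ (1 / 2 - ε)⌋₊).filter (fun q => ¬ P ∣ q),
          |C| ^ q.primeFactors.card * E q +
          4 * ∑ q ∈ (Icc 1 ⌊(N : ℝ) ^ (1 / 2 - ε)⌋₊).filter (fun q => ¬ P ∣ q),
            |C| ^ q.primeFactors.card := by
      rw [Finset.mul_sum, Finset.mul_sum, ← Finset.sum_add_distrib]
      refine Finset.sum_congr rfl fun q _ => ?_
      ring
    rw [h5]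
    have h6 : ∑ q ∈ (Icc 1 ⌊(N : ℝ) ^ (1 / 2 - ε)⌋₊).filter (fun q => ¬ P ∣ q),
        |C| ^ q.primeFactors.card ≤ C1 * (N : ℝ) ^ (3 / 4 : ℝ) :=
      (Finset.sum_le_sum_of_subset_of_nonneg (Finset.filter_subset _ _)
        fun _ _ _ => pow_nonneg (abs_nonneg _) _).trans (h2 ε hε N (by omega))
    set ρ := rh N with hρ
    have hlogN : Real.log N = ρ ^ 20 := (rh_pow N).symm
    have hN14 : (N : ℝ) ^ (1 / 4 : ℝ) = Real.exp (ρ ^ 20 / 4) := by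
      rw [Real.rpow_def_of_pos hNpos, hlogN]
      congr 1; ring
    have hN34 : (N : ℝ) ^ (3 / 4 : ℝ) * (N : ℝ) ^ (1 / 4 : ℝ) = N := by
      rw [← Real.rpow_add hNpos]
      norm_num
    have hρ20 : ρ ≤ ρ ^ 20 := le_self_pow₀ (by linarith) (by norm_num)
    have h7 : 8 * C1 ≤ (N : ℝ) ^ (1 / 4 : ℝ) * Real.exp (-(ρ / 12)) := by
      rw [hN14, ← Real.exp_add]
      have h8 : 8 * C1 + 1 ≤ Real.exp (ρ / 6) := by
        rw [← Real.log_le_iff_le_exp (by positivity)]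
        linarith
      have h9 : Real.exp (ρ / 6) ≤ Real.exp (ρ ^ 20 / 4 + -(ρ / 12)) :=
        Real.exp_le_exp.2 (by linarith)
      linarith
    have h8 : 4 * (C1 * (N : ℝ) ^ (3 / 4 : ℝ)) ≤ 1 / 2 * (N * Real.exp (-(ρ / 12))) := by
      have h9 : (0 : ℝ) ≤ (N : ℝ) ^ (3 / 4 : ℝ) := by positivity
      calc 4 * (C1 * (N : ℝ) ^ (3 / 4 : ℝ)) = 1 / 2 * ((N : ℝ) ^ (3 / 4 : ℝ) * (8 * C1)) := by ring
        _ ≤ 1 / 2 * ((N : ℝ) ^ (3 / 4 : ℝ) * ((N : ℝ) ^ (1 / 4 : ℝ) * Real.exp (-(ρ / 12)))) := by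
            gcongr
        _ = 1 / 2 * ((N : ℝ) ^ (3 / 4 : ℝ) * (N : ℝ) ^ (1 / 4 : ℝ) * Real.exp (-(ρ / 12))) := by ring
        _ = _ := by rw [hN34]
    have h9 : 2 * (N * Real.exp (-(ρ / 10))) ≤ 1 / 2 * (N * Real.exp (-(ρ / 12))) := by
      have h10 : Real.exp (-(ρ / 10)) = Real.exp (-(ρ / 12)) * Real.exp (-(ρ / 60)) := by
        rw [← Real.exp_add]; congr 1; ring
      have h11 : Real.exp (-(ρ / 60)) ≤ 1 / 4 := by
        have h12 : Real.exp (-(ρ / 60)) ≤ Real.exp (-2) := Real.exp_le_exp.2 (by linarith)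
        have h13 : Real.exp (-2) ≤ 1 / 4 := by
          rw [Real.exp_neg, one_div]
          refine inv_anti₀ (by norm_num) ?_
          have h14 := Real.exp_one_gt_d9
          have h15 : Real.exp 2 = Real.exp 1 * Real.exp 1 := by rw [← Real.exp_add]; norm_num
          rw [h15]
          nlinarith
        linarith
      rw [h10]
      have h12 : 0 < N * Real.exp (-(ρ / 12)) := by positivity
      nlinarith
    linarith

end BVX
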