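import Pool.Agent.H17.BX.Swx
import Pool.Agent.H17.BX.Lrx
import Pool.Agent.H17.BV.Main

/-!
# BX / PSX: Bombieri-Vinogradov for `ψ` with error `N exp(-ρ/8)`, `ρ = (log N)^{1/20}` (from SWX, LRX; adapt `bv_psi` of `Pool/Agent/H17/BV/Main.lean`)

`P` from `swx` (depends on `N` only). `X' r = if P ∣ r then 0 else XR N r`. For `¬ P ∣ q` all divisors `r` of `q` have `¬ P ∣ r`, so with `orth`
`E q = (∑_{r ∣ q} X' r)/φ(q) + D/φ(q) + 2 (log N)^2`. Sum: `bv_psi_T1` with `X'` (all `q`), conductors `≤ exp ρ`: `XR N r ≤ r N exp(-4ρ)`, total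
`≤ C2 exp(2ρ) N exp(-4ρ)`; conductors `> exp ρ`: `lrx`. `D ≤ N exp(-2ρ)` for large `N` from `Pool.Agent.H17.ZB.psi_error` (exponent `1/10`: `(log y)^{1/10} ≥ (ρ^2)/2` for
`y ≥ √N`, and `a ρ^2/2 ≥ 3ρ`). All sums `∑ C^{ω(m)}/φ(m) ≤ C1 (log N)^k`, `(log N)^k exp(-ρ/4) ≤ exp(-ρ/8)/8` for large `N`.
-/

open Finset H69LB

namespace BVX

open BVL

theorem psx_ev {p : ℝ → Prop} (h : ∀ᶠ r : ℝ in Filter.atTop, p r) : ∃ N0 : ℕ, ∀ N : ℕ, N0 ≤ N → p (rh N) :=
  Filter.eventually_atTop.mp (rh_tendsto.eventually h)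

theorem psx_grow (K : ℝ) (a : ℕ) {b : ℝ} (hb : 0 < b) : ∀ᶠ r : ℝ in Filter.atTop, K * r ^ a ≤ Real.exp (b * r) := by
  have h := (isLittleO_pow_exp_pos_mul_atTop a hb).bound (show (0 : ℝ) < 1 / (|K| + 1) by positivity)
  filter_upwards [h, Filter.eventually_ge_atTop 0] with r hr hr0
  rw [Real.norm_of_nonneg (by positivity), Real.norm_of_nonneg (Real.exp_pos _).le] at hr
  have hK : 0 ≤ |K| := abs_nonneg K
  have h1 : (|K| + 1) * r ^ a ≤ Real.exp (b * r) := by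
    have := mul_le_mul_of_nonneg_left hr (by positivity : 0 ≤ |K| + 1)
    rwa [← mul_assoc, mul_one_div_cancel (by positivity : |K| + 1 ≠ 0), one_mul] at this
  refine le_trans ?_ h1
  exact mul_le_mul_of_nonneg_right (by linarith [le_abs_self K]) (by positivity)

/-- `K ρ^a exp(b ρ) ≤ exp(ρ^20/2)` for large `ρ` -/
theorem psx_grow2 (K : ℝ) (a : ℕ) (b : ℝ) : ∀ᶠ r : ℝ in Filter.atTop, K * r ^ a * Real.exp (b * r) ≤ Real.exp (r ^ 20 / 2) := by
  filter_upwards [psx_grow K a one_pos, Filter.eventually_ge_atTop (max 1 (2 * (1 + |b|)))] with r hr hr1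
  have h1 : 1 ≤ r := (le_max_left _ _).trans hr1
  have h2 : 2 * (1 + |b|) ≤ r := (le_max_right _ _).trans hr1
  have h3 : b * r ≤ |b| * r := mul_le_mul_of_nonneg_right (le_abs_self b) (by linarith)
  have h4 : r ^ 2 ≤ r ^ 20 := pow_le_pow_right₀ h1 (by norm_num)
  calc K * r ^ a * Real.exp (b * r) ≤ Real.exp (1 * r) * Real.exp (b * r) :=
        mul_le_mul_of_nonneg_right hr (Real.exp_pos _).le
    _ = Real.exp (1 * r + b * r) := (Real.exp_add _ _).symm
    _ ≤ Real.exp (r ^ 20 / 2) := by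
        apply Real.exp_le_exp.mpr
        nlinarith

/-- the prime number theorem -/
theorem psx_D : ∃ N0 : ℕ, ∀ N : ℕ, N0 ≤ N →
    mx N (fun y => |∑ n ∈ Icc 1 y, ArithmeticFunction.vonMangoldt n - (y : ℝ)|) ≤ N * Real.exp (-(2 * rh N)) := by
  obtain ⟨a, C, ha, hC, h⟩ := Pool.Agent.H17.ZB.psi_error
  obtain ⟨N1, hN1⟩ := psx_ev (psx_grow2 7 0 2)
  have hev : ∀ᶠ r : ℝ in Filter.atTop, 1 ≤ r ∧ C * Real.exp (-(a / 2 * r ^ 2)) ≤ Real.exp (-(2 * r)) := by
    filter_upwards [Filter.eventually_ge_atTop (max 1 (2 / a * (2 + C)))] with r hr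
    have h1 : 1 ≤ r := (le_max_left _ _).trans hr
    have h2 : 2 / a * (2 + C) ≤ r := (le_max_right _ _).trans hr
    refine ⟨h1, ?_⟩
    have h3 : C ≤ Real.exp (C * r) := by
      have := Real.add_one_le_exp (C * r)
      nlinarith
    have h4 : 2 + C ≤ a / 2 * r := by
      have := mul_le_mul_of_nonneg_left h2 (by positivity : 0 ≤ a / 2)
      rwa [← mul_assoc, show a / 2 * (2 / a) = 1 by field_simp, one_mul] at this
    calc C * Real.exp (-(a / 2 * r ^ 2)) ≤ Real.exp (C * r) * Real.exp (-(a / 2 * r ^ 2)) :=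
          mul_le_mul_of_nonneg_right h3 (Real.exp_pos _).le
      _ = Real.exp (C * r + -(a / 2 * r ^ 2)) := (Real.exp_add _ _).symm
      _ ≤ Real.exp (-(2 * r)) := by
          apply Real.exp_le_exp.mpr
          nlinarith
  obtain ⟨N2, hN2⟩ := psx_ev hev
  refine ⟨max (max N1 N2) 5, fun N hN => ?_⟩
  have hN5 : 5 ≤ N := by omega
  have hNr : (5 : ℝ) ≤ N := by exact_mod_cast hN5
  have hN0 : (0 : ℝ) < N := by linarith
  obtain ⟨hr1, hr2⟩ := hN2 N (by omega)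
  have hg := hN1 N (by omega)
  have hl : 0 < Real.log N := Real.log_pos (by linarith)
  have hs : 0 ≤ Real.sqrt N := Real.sqrt_nonneg _
  have hss : Real.sqrt N * Real.sqrt N = N := Real.mul_self_sqrt (by linarith)
  have hs2 : 2 ≤ Real.sqrt N := by
    rw [Real.le_sqrt (by norm_num) (by linarith)]
    linarith
  have hsq : Real.exp (rh N ^ 20 / 2) = Real.sqrt N := by
    rw [rh_pow, Real.exp_half, Real.exp_log hN0]
  rw [hsq, pow_zero, mul_one] at hg
  obtain ⟨ρ, hρ⟩ : ∃ ρ, ρ = rh N := ⟨_, rfl⟩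
  rw [← hρ] at hg hr1 hr2 ⊢
  have he : Real.exp (2 * ρ) * Real.exp (-(2 * ρ)) = 1 := by
    rw [← Real.exp_add, add_neg_cancel, Real.exp_zero]
  have hep := Real.exp_pos (-(2 * ρ))
  have hq : 7 * Real.sqrt N ≤ N * Real.exp (-(2 * ρ)) := by
    have h1 := mul_le_mul_of_nonneg_right hg hep.le
    rw [mul_assoc, he, mul_one] at h1
    have h2 := mul_le_mul_of_nonneg_left h1 hs
    calc 7 * Real.sqrt N = Real.sqrt N * 7 := mul_comm _ _
      _ ≤ Real.sqrt N * (Real.sqrt N * Real.exp (-(2 * ρ))) := h2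
      _ = N * Real.exp (-(2 * ρ)) := by rw [← mul_assoc, hss]
  apply mx_le
  intro y hy
  show |∑ n ∈ Icc 1 y, ArithmeticFunction.vonMangoldt n - (y : ℝ)| ≤ _
  rw [bv_psi_cheb]
  have hyN : (y : ℝ) ≤ N := by exact_mod_cast hy
  have hy0 : (0 : ℝ) ≤ y := Nat.cast_nonneg y
  rcases le_or_gt (y : ℝ) (Real.sqrt N) with h1 | h1
  · have h6 := Pool.Agent.H17.ZB.psi_le_six hy0
    have h7 : 0 ≤ Chebyshev.psi (y : ℝ) := Chebyshev.psi_nonneg _
    have h8 : |Chebyshev.psi (y : ℝ) - y| ≤ 7 * y := by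
      rw [abs_le]
      constructor <;> linarith
    calc |Chebyshev.psi (y : ℝ) - y| ≤ 7 * y := h8
      _ ≤ 7 * Real.sqrt N := by linarith
      _ ≤ _ := hq
  · have hy2 : (2 : ℝ) ≤ y := by linarith
    have h6 := h y hy2
    have hly : Real.log N / 2 ≤ Real.log y := by
      have := Real.log_le_log (by linarith : (0 : ℝ) < Real.sqrt N) h1.le
      rwa [Real.log_sqrt (by linarith)] at this
    have h7 : ρ ^ 2 / 2 ≤ Real.log y ^ ((1 : ℝ) / 10) := by
      have e1 : (Real.log N / 2) ^ ((1 : ℝ) / 10) ≤ Real.log y ^ ((1 : ℝ) / 10) :=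
        Real.rpow_le_rpow (by positivity) hly (by norm_num)
      have e2 : (Real.log N / 2) ^ ((1 : ℝ) / 10) = ρ ^ 2 * (1 / 2) ^ ((1 : ℝ) / 10) := by
        rw [div_eq_mul_one_div, Real.mul_rpow hl.le (by norm_num), hρ]
        congr 1
        unfold rh
        rw [← Real.rpow_natCast, ← Real.rpow_mul hl.le]
        norm_num
      have e3 : (1 / 2 : ℝ) ≤ (1 / 2) ^ ((1 : ℝ) / 10) := by
        calc (1 / 2 : ℝ) = (1 / 2) ^ (1 : ℝ) := (Real.rpow_one _).symm
          _ ≤ (1 / 2) ^ ((1 : ℝ) / 10) :=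
            Real.rpow_le_rpow_of_exponent_ge (by norm_num) (by norm_num) (by norm_num)
      rw [e2] at e1
      have := mul_le_mul_of_nonneg_left e3 (sq_nonneg ρ)
      linarith
    calc |Chebyshev.psi (y : ℝ) - y| ≤ C * y * Real.exp (-a * Real.log y ^ ((1 : ℝ) / 10)) := h6
      _ ≤ C * N * Real.exp (-(a / 2 * ρ ^ 2)) := by
          apply mul_le_mul (mul_le_mul_of_nonneg_left hyN hC.le) _ (Real.exp_pos _).le (by positivity)
          apply Real.exp_le_exp.mpr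
          have := mul_le_mul_of_nonneg_left h7 ha.le
          linarith
      _ = N * (C * Real.exp (-(a / 2 * ρ ^ 2))) := by ring
      _ ≤ N * Real.exp (-(2 * ρ)) := mul_le_mul_of_nonneg_left hr2 hN0.le

/-- the small conductors -/
theorem psx_small {C C2 : ℝ} (hC : 0 ≤ C) (hC2 : 0 ≤ C2)
    (hW : ∀ r : ℕ, 1 ≤ r → C ^ r.primeFactors.card / (Nat.totient r : ℝ) ≤ C2)
    (N R P : ℕ)
    (hS : ∀ q : ℕ, 1 ≤ q → (q : ℝ) ≤ Real.exp (rh N) → ¬ P ∣ q → ∀ χ ∈ pc q, PM N χ ≤ N * Real.exp (-(4 * rh N))) :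
    ∑ r ∈ (Icc 1 R).filter (fun r : ℕ => ¬ (Real.exp (rh N) < (r : ℝ))),
      C ^ r.primeFactors.card / (Nat.totient r : ℝ) * (if P ∣ r then 0 else XR N r) ≤
      C2 * (N * Real.exp (-(2 * rh N))) := by
  obtain ⟨M, hM⟩ : ∃ M, M = Real.exp (rh N) := ⟨_, rfl⟩
  have hM0 : 0 < M := by rw [hM]; exact Real.exp_pos _
  have hq : 0 ≤ (N : ℝ) * Real.exp (-(4 * rh N)) := mul_nonneg (Nat.cast_nonneg _) (Real.exp_pos _).le
  rw [← hM] at hS ⊢
  have h1 : ∀ r ∈ (Icc 1 R).filter (fun r : ℕ => ¬ (M < (r : ℝ))),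
      C ^ r.primeFactors.card / (Nat.totient r : ℝ) * (if P ∣ r then 0 else XR N r) ≤
        C2 * (M * (N * Real.exp (-(4 * rh N)))) := by
    intro r hr
    rw [Finset.mem_filter, Finset.mem_Icc, not_lt] at hr
    split_ifs with hP
    · rw [mul_zero]
      positivity
    · have h2 : XR N r ≤ M * (N * Real.exp (-(4 * rh N))) := by
        calc XR N r ≤ ∑ χ ∈ pc r, (N * Real.exp (-(4 * rh N))) := Finset.sum_le_sum (hS r hr.1.1 hr.2 hP)
          _ = ((pc r).card : ℝ) * (N * Real.exp (-(4 * rh N))) := by rw [Finset.sum_const, nsmul_eq_mul]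
          _ ≤ M * (N * Real.exp (-(4 * rh N))) := by
              apply mul_le_mul_of_nonneg_right _ hq
              have : ((pc r).card : ℝ) ≤ r := by exact_mod_cast bv_psi_card r hr.1.1
              linarith [hr.2]
      exact mul_le_mul (hW r hr.1.1) h2 (XR_nonneg N r) hC2
  refine (Finset.sum_le_sum h1).trans ?_
  rw [Finset.sum_const, nsmul_eq_mul]
  have h3 : (((Icc 1 R).filter (fun r : ℕ => ¬ (M < (r : ℝ)))).card : ℝ) ≤ M := by
    have h4 : (Icc 1 R).filter (fun r : ℕ => ¬ (M < (r : ℝ))) ⊆ Icc 1 ⌊M⌋₊ := by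
      intro r hr
      rw [Finset.mem_filter, Finset.mem_Icc, not_lt] at hr
      rw [Finset.mem_Icc]
      exact ⟨hr.1.1, Nat.le_floor hr.2⟩
    have h5 := Finset.card_le_card h4
    rw [Nat.card_Icc, Nat.add_sub_cancel] at h5
    calc (((Icc 1 R).filter (fun r : ℕ => ¬ (M < (r : ℝ)))).card : ℝ)
        ≤ (⌊M⌋₊ : ℝ) := by exact_mod_cast h5
      _ ≤ _ := Nat.floor_le hM0.le
  calc _ ≤ M * (C2 * (M * (N * Real.exp (-(4 * rh N))))) :=
        mul_le_mul_of_nonneg_right h3 (by positivity)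
    _ = C2 * (N * (M * M * Real.exp (-(4 * rh N)))) := by ring
    _ = _ := by
        rw [hM, ← Real.exp_add, ← Real.exp_add]
        congr 3
        ring

theorem bvx_psi {ε : ℝ} (hε : 0 < ε) (C : ℝ) : ∃ N0 : ℕ, ∀ N : ℕ, N0 ≤ N → ∃ P : ℕ, P.Prime ∧ (P : ℝ) ≤ Real.exp (rh N) ∧ ∃ E : ℕ → ℝ, (∀ q, 0 ≤ E q) ∧
    (∀ q : ℕ, 1 ≤ q → (q : ℝ) ≤ (N : ℝ) ^ (1 / 2 - ε) → ¬ P ∣ q → ∀ a : ℕ, Nat.Coprime a q → ∀ y : ℕ, y ≤ N →
      |∑ n ∈ (Icc 1 y).filter (fun n => n ≡ a [MOD q]), ArithmeticFunction.vonMangoldt n -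
        y / (Nat.totient q : ℝ)| ≤ E q) ∧
    ∑ q ∈ (Icc 1 ⌊(N : ℝ) ^ (1 / 2 - ε)⌋₊).filter (fun q => ¬ P ∣ q), |C| ^ q.primeFactors.card * E q ≤
      N * Real.exp (-(rh N / 8)) := by
  obtain ⟨C', hC'def⟩ : ∃ C' : ℝ, C' = max |C| 1 := ⟨_, rfl⟩
  have hC'1 : 1 ≤ C' := by rw [hC'def]; exact le_max_right _ _
  have hCC' : |C| ≤ C' := by rw [hC'def]; exact le_max_left _ _
  have hC'0 : 0 ≤ C' := by linarith
  obtain ⟨C1, hC1, k, hS⟩ := omega_sum hC'0
  obtain ⟨C2, hC2, hW⟩ := omega_bound hC'0 one_pos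
  have hW' : ∀ r : ℕ, 1 ≤ r → C' ^ r.primeFactors.card / (Nat.totient r : ℝ) ≤ C2 := by
    intro r hr
    have := hW r hr
    rwa [show (-1 + 1 : ℝ) = 0 by norm_num, Real.rpow_zero, mul_one] at this
  obtain ⟨N1, hL⟩ := lrx hε hC'0
  obtain ⟨N2, hSW⟩ := swx
  obtain ⟨N3, hD⟩ := psx_D
  obtain ⟨N4, hG⟩ := psx_ev (psx_grow2 2 40 (1 / 4))
  obtain ⟨N5, hG5⟩ := psx_ev ((psx_grow (C1 * (C2 + 3)) (20 * k) (by norm_num : (0 : ℝ) < 1 / 8)).and
    (Filter.eventually_ge_atTop 0))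
  refine ⟨max (max (max N1 N2) (max N3 N4)) (max 3 N5), ?_⟩
  intro N hN
  have hN1 := hL N (by omega)
  obtain ⟨P, hP, hPs, hN2⟩ := hSW N (by omega)
  have hN3 := hD N (by omega)
  have hN4 := hG N (by omega)
  obtain ⟨hN5, hρ0⟩ := hG5 N (by omega)
  have hN3' : 3 ≤ N := by omega
  have hNr : (3 : ℝ) ≤ N := by exact_mod_cast hN3'
  have hN0 : (0 : ℝ) < N := by linarith
  have hlpow := rh_pow N
  obtain ⟨R, hR⟩ : ∃ R : ℕ, R = ⌊(N : ℝ) ^ (1 / 2 - ε)⌋₊ := ⟨_, rfl⟩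
  have hRs : (R : ℝ) ≤ Real.sqrt N := by
    rw [hR, Real.sqrt_eq_rpow]
    refine (Nat.floor_le (by positivity)).trans ?_
    exact Real.rpow_le_rpow_of_exponent_le (by linarith) (by linarith)
  have hsN : Real.sqrt N * Real.sqrt N = N := Real.mul_self_sqrt hN0.le
  have hs1 : 1 ≤ Real.sqrt N := by
    rw [Real.le_sqrt (by norm_num) hN0.le]
    linarith
  have hRN : R ≤ N := by
    have : (R : ℝ) ≤ N := by nlinarith
    exact_mod_cast this
  have hsq : Real.exp (rh N ^ 20 / 2) = Real.sqrt N := by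
    rw [rh_pow, Real.exp_half, Real.exp_log hN0]
  rw [← hR] at hN1 ⊢
  obtain ⟨D, hDdef⟩ : ∃ D : ℝ, D = mx N (fun y => |∑ n ∈ Icc 1 y, ArithmeticFunction.vonMangoldt n - (y : ℝ)|) :=
    ⟨_, rfl⟩
  rw [← hDdef] at hN3
  have hD0 : 0 ≤ D := by rw [hDdef]; exact mx_nonneg (fun y => abs_nonneg _)
  obtain ⟨l, hl⟩ : ∃ l, l = Real.log N := ⟨_, rfl⟩
  have hS1 : ∑ m ∈ Icc 1 R, C' ^ m.primeFactors.card / (Nat.totient m : ℝ) ≤ C1 * l ^ k := by
    have h1 := hS N (by omega)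
    rw [← hl] at h1
    refine le_trans ?_ h1
    apply Finset.sum_le_sum_of_subset_of_nonneg (Finset.Icc_subset_Icc_right hRN)
    intro m _ _
    positivity
  have hl0 : 0 ≤ l := by rw [hl]; exact Real.log_natCast_nonneg N
  obtain ⟨X', hX'⟩ : ∃ X' : ℕ → ℝ, X' = fun r => if P ∣ r then 0 else XR N r := ⟨_, rfl⟩
  have hX'0 : ∀ r, 0 ≤ X' r := by
    intro r
    rw [hX']
    show (0 : ℝ) ≤ if P ∣ r then 0 else XR N r
    split_ifs
    · exact le_rfl
    · exact XR_nonneg N r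
  refine ⟨P, hP, hPs, fun q => (∑ r ∈ q.divisors, X' r) / (Nat.totient q : ℝ) + D / (Nat.totient q : ℝ) + 2 * l ^ 2, ?_, ?_, ?_⟩
  · intro q
    have : 0 ≤ ∑ r ∈ q.divisors, X' r := Finset.sum_nonneg (fun r _ => hX'0 r)
    positivity
  · intro q hq hqN hPq a ha y hy
    have hqN' : q ≤ N := by
      have h1 : (q : ℝ) ≤ N := by
        refine hqN.trans ?_
        calc (N : ℝ) ^ (1 / 2 - ε) ≤ (N : ℝ) ^ (1 : ℝ) :=
              Real.rpow_le_rpow_of_exponent_le (by linarith) (by linarith)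
          _ = N := Real.rpow_one _
      exact_mod_cast h1
    have h1 := orth hq ha hy hqN' (by omega)
    rw [← hl] at h1
    have hXX : ∑ r ∈ q.divisors, XR N r = ∑ r ∈ q.divisors, X' r := by
      refine Finset.sum_congr rfl fun r hr => ?_
      rw [hX']
      show XR N r = if P ∣ r then 0 else XR N r
      rw [if_neg]
      intro h
      exact hPq (h.trans (Nat.dvd_of_mem_divisors hr))
    rw [hXX] at h1
    have hphi : (0 : ℝ) < (Nat.totient q : ℝ) := by exact_mod_cast Nat.totient_pos.mpr hq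
    have h2 : |(∑ n ∈ Icc 1 y, ArithmeticFunction.vonMangoldt n) / (Nat.totient q : ℝ) - y / (Nat.totient q : ℝ)| ≤
        D / (Nat.totient q : ℝ) := by
      rw [← sub_div, abs_div, abs_of_pos hphi]
      apply div_le_div_of_nonneg_right _ hphi.le
      rw [hDdef]
      exact le_mx (fun y => |∑ n ∈ Icc 1 y, ArithmeticFunction.vonMangoldt n - (y : ℝ)|) hy
    have h3 := abs_sub_le (∑ n ∈ (Icc 1 y).filter (fun n => n ≡ a [MOD q]), ArithmeticFunction.vonMangoldt n)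
      ((∑ n ∈ Icc 1 y, ArithmeticFunction.vonMangoldt n) / (Nat.totient q : ℝ)) (y / (Nat.totient q : ℝ))
    show _ ≤ (∑ r ∈ q.divisors, X' r) / (Nat.totient q : ℝ) + D / (Nat.totient q : ℝ) + 2 * l ^ 2
    linarith
  · obtain ⟨ρ, hρ⟩ : ∃ ρ, ρ = rh N := ⟨_, rfl⟩
    have hlρ : l = ρ ^ 20 := by rw [hl, hρ, rh_pow]
    have hT1 : ∑ q ∈ Icc 1 R, C' ^ q.primeFactors.card / (Nat.totient q : ℝ) * ∑ r ∈ q.divisors, X' r ≤
        (C1 * l ^ k) * (N * Real.exp (-(ρ / 4)) + C2 * (N * Real.exp (-(2 * ρ)))) := by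
      refine (bv_psi_T1 hC'1 R X' hX'0).trans ?_
      apply mul_le_mul hS1 _ _ (by positivity)
      · rw [← Finset.sum_filter_add_sum_filter_not (Icc 1 R) (fun r : ℕ => Real.exp (rh N) < (r : ℝ))]
        have h2 := psx_small hC'0 hC2 hW' N R P hN2
        have h3 : ∑ r ∈ (Icc 1 R).filter (fun r : ℕ => Real.exp (rh N) < (r : ℝ)),
            C' ^ r.primeFactors.card / (Nat.totient r : ℝ) * X' r ≤ N * Real.exp (-(rh N / 4)) := by
          refine le_trans (Finset.sum_le_sum fun r _ => ?_) hN1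
          apply mul_le_mul_of_nonneg_left _ (by positivity)
          rw [hX']
          show (if P ∣ r then 0 else XR N r) ≤ XR N r
          split_ifs
          · exact XR_nonneg N r
          · exact le_rfl
        rw [hX'] at h3 ⊢
        rw [hρ]
        exact add_le_add h3 h2
      · apply Finset.sum_nonneg
        intro r _
        have := hX'0 r
        positivity
    have hT3 : ∑ q ∈ Icc 1 R, C' ^ q.primeFactors.card ≤ Real.sqrt N * (C1 * l ^ k) := by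
      refine (bv_psi_T3 hC'0 R).trans ?_
      exact mul_le_mul hRs hS1 (Finset.sum_nonneg (fun m _ => by positivity)) (by positivity)
    have hsum : ∑ q ∈ (Icc 1 R).filter (fun q => ¬ P ∣ q), |C| ^ q.primeFactors.card *
          ((∑ r ∈ q.divisors, X' r) / (Nat.totient q : ℝ) + D / (Nat.totient q : ℝ) + 2 * l ^ 2) ≤
        (∑ q ∈ Icc 1 R, C' ^ q.primeFactors.card / (Nat.totient q : ℝ) * ∑ r ∈ q.divisors, X' r) +
        (∑ q ∈ Icc 1 R, C' ^ q.primeFactors.card / (Nat.totient q : ℝ)) * D +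
        (∑ q ∈ Icc 1 R, C' ^ q.primeFactors.card) * (2 * l ^ 2) := by
      rw [Finset.sum_mul, Finset.sum_mul, ← Finset.sum_add_distrib, ← Finset.sum_add_distrib]
      refine le_trans (Finset.sum_le_sum_of_subset_of_nonneg (Finset.filter_subset _ _) ?_) ?_
      · intro q _ _
        have h0 : 0 ≤ ∑ r ∈ q.divisors, X' r := Finset.sum_nonneg (fun r _ => hX'0 r)
        positivity
      apply Finset.sum_le_sum
      intro q _
      have h0 : 0 ≤ ∑ r ∈ q.divisors, X' r := Finset.sum_nonneg (fun r _ => hX'0 r)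
      have h1 : |C| ^ q.primeFactors.card ≤ C' ^ q.primeFactors.card := pow_le_pow_left₀ (abs_nonneg C) hCC' _
      calc |C| ^ q.primeFactors.card *
          ((∑ r ∈ q.divisors, X' r) / (Nat.totient q : ℝ) + D / (Nat.totient q : ℝ) + 2 * l ^ 2)
          ≤ C' ^ q.primeFactors.card *
          ((∑ r ∈ q.divisors, X' r) / (Nat.totient q : ℝ) + D / (Nat.totient q : ℝ) + 2 * l ^ 2) :=
            mul_le_mul_of_nonneg_right h1 (by positivity)
        _ = _ := by ring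
    refine hsum.trans ?_
    have hlk : 0 ≤ C1 * l ^ k := by positivity
    rw [← hρ] at hN3 hN4 hN5 hρ0
    have hx4 : Real.exp (-(2 * ρ)) ≤ Real.exp (-(ρ / 4)) := Real.exp_le_exp.mpr (by linarith)
    have e2 : (∑ q ∈ Icc 1 R, C' ^ q.primeFactors.card / (Nat.totient q : ℝ)) * D ≤
        (C1 * l ^ k) * (N * Real.exp (-(2 * ρ))) := mul_le_mul hS1 hN3 hD0 hlk
    have hsq' : Real.exp (ρ ^ 20 / 2) = Real.sqrt N := by rw [hρ]; exact hsq
    rw [hsq'] at hN4
    have e3 : (∑ q ∈ Icc 1 R, C' ^ q.primeFactors.card) * (2 * l ^ 2) ≤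
        (C1 * l ^ k) * (N * Real.exp (-(ρ / 4))) := by
      calc (∑ q ∈ Icc 1 R, C' ^ q.primeFactors.card) * (2 * l ^ 2)
          ≤ (Real.sqrt N * (C1 * l ^ k)) * (2 * l ^ 2) := mul_le_mul_of_nonneg_right hT3 (by positivity)
        _ = (C1 * l ^ k) * (Real.sqrt N * (2 * ρ ^ 40)) := by
            have : l ^ 2 = ρ ^ 40 := by rw [hlρ]; ring
            rw [this]
            ring
        _ ≤ (C1 * l ^ k) * (N * Real.exp (-(ρ / 4))) := by
            apply mul_le_mul_of_nonneg_left _ hlk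
            have h5 : 2 * ρ ^ 40 ≤ Real.sqrt N * Real.exp (-(ρ / 4)) := by
              have h6 := mul_le_mul_of_nonneg_right hN4 (Real.exp_pos (-(ρ / 4))).le
              have h7 : Real.exp (1 / 4 * ρ) * Real.exp (-(ρ / 4)) = 1 := by
                rw [← Real.exp_add, show 1 / 4 * ρ + -(ρ / 4) = 0 by ring, Real.exp_zero]
              rw [mul_assoc, h7, mul_one] at h6
              exact h6
            calc Real.sqrt N * (2 * ρ ^ 40) ≤ Real.sqrt N * (Real.sqrt N * Real.exp (-(ρ / 4))) :=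
                  mul_le_mul_of_nonneg_left h5 (Real.sqrt_nonneg _)
              _ = N * Real.exp (-(ρ / 4)) := by rw [← mul_assoc, hsN]
    have e5 : (C1 * l ^ k) * (C2 + 3) ≤ Real.exp (ρ / 8) := by
      have h8 : l ^ k = ρ ^ (20 * k) := by rw [hlρ, ← pow_mul]
      rw [h8]
      have h9 : Real.exp (1 / 8 * ρ) = Real.exp (ρ / 8) := by
        congr 1
        ring
      rw [h9] at hN5
      linarith
    have hNx : 0 ≤ (N : ℝ) * Real.exp (-(ρ / 4)) := by positivity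
    have h10 : (N : ℝ) * Real.exp (-(2 * ρ)) ≤ N * Real.exp (-(ρ / 4)) := mul_le_mul_of_nonneg_left hx4 hN0.le
    have h11 : C2 * ((N : ℝ) * Real.exp (-(2 * ρ))) ≤ C2 * (N * Real.exp (-(ρ / 4))) :=
      mul_le_mul_of_nonneg_left h10 hC2
    have h12 := mul_le_mul_of_nonneg_left h11 hlk
    have h13 := mul_le_mul_of_nonneg_left h10 hlk
    calc _ ≤ (C1 * l ^ k) * (N * Real.exp (-(ρ / 4)) + C2 * (N * Real.exp (-(2 * ρ)))) +
          (C1 * l ^ k) * (N * Real.exp (-(2 * ρ))) + (C1 * l ^ k) * (N * Real.exp (-(ρ / 4))) :=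
          add_le_add (add_le_add hT1 e2) e3
      _ ≤ ((C1 * l ^ k) * (C2 + 3)) * (N * Real.exp (-(ρ / 4))) := by linarith
      _ ≤ Real.exp (ρ / 8) * (N * Real.exp (-(ρ / 4))) := mul_le_mul_of_nonneg_right e5 hNx
      _ = N * (Real.exp (ρ / 8) * Real.exp (-(ρ / 4))) := by ring
      _ = N * Real.exp (-(ρ / 8)) := by
          rw [← Real.exp_add]
          congr 2
          ring
      _ = _ := by rw [hρ]

end BVX
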