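import Pool.Agent.H17.BX.Defs
import Pool.Agent.H17.BX.Pge
import Pool.Agent.H17.BV.SW

/-!
# BX / SWX: primes in progressions to moduli `≤ exp((log N)^{1/20})`, outside the multiples of one prime (from PAGE, SMC, SHP)

Adapted from `Pool/Agent/H17/BV/SW.lean`, in terms of `ρ = rh N`, `ℓ = log N = ρ^20`, `ρ` large. `c0` from `page`,
`lam = c0/(3ρ)^3 ≤ 1`.
`P`: if some `q1 ≤ exp ρ` has a primitive `χ1 ≠ 1`, `χ1^2 = 1` with `‖L(1,χ1)‖ < lam`, then `q1 ≠ 1`; take `P = q1.minFac`: `¬ P ∣ q` implies `q ≠ q1`,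
and `page` with `L = 3ρ` (`4 q1 q ≤ 4 exp(2ρ) ≤ exp(3ρ)`) gives `lam ≤ ‖L(1,χ)‖` for all real `χ ∈ pc q`. Otherwise take `P = 2`.
For `χ ∈ pc q` (so `χ ≠ 1`), `T = exp(7ρ)`, `δ = exp(-5ρ)`, `x = 1/ℓ`, `L = 9ρ` (`2T+5 ≤ exp(8ρ)`, `q ≤ exp ρ`):
`L^11/lam = (9ρ)^11 (3ρ)^3/c0 ≤ ρ^15` for large `ρ`. For `u ∈ [ℓ/4, ℓ]` the exponential in `smc` is `≤ exp(-(c/4) ρ^5)`, so SMC gives
`‖S(u)‖ ≤ C (ρ^15 exp(7ρ) exp(-(c/4)ρ^5) + (ρ^15 + ρ^20) exp(35ρ - 49ρ)) ≤ exp(-12ρ) =: E` for large `ρ`.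
Let `y ≤ N`. If `y ≤ N exp(-5ρ)`: `‖ψ(y,χ)‖ ≤ 6y`. Otherwise SHP with `b = log y`, `a = ℓ/4`, `c = chiLam χ`:
`‖ψ(y,χ)‖ ≤ C' (E y exp(5ρ) + exp(ℓ/4) + (1+ℓ)(exp(-5ρ) N + 1)) ≤ N exp(-4ρ)` for large `ρ`.
-/

open Finset H69LB

namespace BVX

open BVL

private theorem sw_psiC {q : ℕ} (χ : DirichletCharacter ℂ q) (y : ℕ) :
    psiC χ y = ∑ n ∈ Icc 1 y, Pool.Agent.H17.chiLam χ n := by
  unfold psiC Pool.Agent.H17.chiLam
  refine Finset.sum_congr rfl fun n _ => ?_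
  simp only [Pi.mul_apply]
  ring

private theorem sw_cl {q : ℕ} (χ : DirichletCharacter ℂ q) (n : ℕ) :
    ‖Pool.Agent.H17.chiLam χ n‖ ≤ ArithmeticFunction.vonMangoldt n := by
  unfold Pool.Agent.H17.chiLam
  simp only [Pi.mul_apply]
  rw [norm_mul, Complex.norm_real, Real.norm_of_nonneg ArithmeticFunction.vonMangoldt_nonneg]
  exact mul_le_of_le_one_left ArithmeticFunction.vonMangoldt_nonneg (χ.norm_le_one _)

private theorem sw_small {q : ℕ} (χ : DirichletCharacter ℂ q) (y : ℕ) : ‖psiC χ y‖ ≤ 6 * y := by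
  rw [sw_psiC]
  have h1 : ‖∑ n ∈ Icc 1 y, Pool.Agent.H17.chiLam χ n‖ ≤ ∑ n ∈ Icc 1 y, ArithmeticFunction.vonMangoldt n :=
    (norm_sum_le _ _).trans (Finset.sum_le_sum fun n _ => sw_cl χ n)
  have h2 := Pool.Agent.H17.ZB.psi_le_six (x := (y : ℝ)) (Nat.cast_nonneg y)
  have h3 : Chebyshev.psi (y : ℝ) = ∑ n ∈ Icc 1 y, ArithmeticFunction.vonMangoldt n := by
    unfold Chebyshev.psi
    rw [Nat.floor_natCast]
    refine Finset.sum_congr ?_ fun _ _ => rfl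
    ext n
    simp only [Finset.mem_Ioc, Finset.mem_Icc]
    omega
  rw [h3] at h2
  exact h1.trans h2

/-- the estimate of the smooth sums, abstract form: `K ρ^14 ≤ ρ^15` and two eventual inequalities -/
private theorem sw_E {C c r Q T δ : ℝ} (hC : 0 < C) (hc : 0 < c) (hr : 2 ≤ r)
    (hT : T = Real.exp (7 * r)) (hδ : δ = Real.exp (-(5 * r)))
    (hQ0 : 0 < Q) (hQ : Q ≤ r ^ 15)
    (e1 : C * (r ^ 15 * Real.exp (-(c / 4 * r ^ 5))) ≤ Real.exp (-(19 * r)) / 2)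
    (e2 : C * (2 * r ^ 20) ≤ Real.exp (2 * r) / 2) {u : ℝ} (hu : r ^ 20 / 4 ≤ u) :
    C * (Q * T * Real.exp (-(c * Q⁻¹ * u)) + (Q + 1 / (1 / r ^ 20)) * ((δ ^ 7)⁻¹ * (T ^ 7)⁻¹))
      ≤ Real.exp (-(12 * r)) := by
  have hr0 : 0 < r := by linarith
  have hr15 : 0 < r ^ 15 := by positivity
  have hinv : (r ^ 15)⁻¹ ≤ Q⁻¹ := inv_anti₀ hQ0 hQ
  have t1 : Real.exp (-(c * Q⁻¹ * u)) ≤ Real.exp (-(c / 4 * r ^ 5)) := by
    rw [Real.exp_le_exp, neg_le_neg_iff]
    have h1 : c / 4 * r ^ 5 = c * (r ^ 15)⁻¹ * (r ^ 20 / 4) := by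
      field_simp
    rw [h1]
    exact mul_le_mul (mul_le_mul_of_nonneg_left hinv hc.le) hu (by positivity) (by positivity)
  have hT0 : 0 < T := by rw [hT]; exact Real.exp_pos _
  have t2 : C * (Q * T * Real.exp (-(c * Q⁻¹ * u))) ≤ Real.exp (-(12 * r)) / 2 := by
    have h1 : Q * T * Real.exp (-(c * Q⁻¹ * u)) ≤ r ^ 15 * T * Real.exp (-(c / 4 * r ^ 5)) :=
      mul_le_mul (mul_le_mul_of_nonneg_right hQ hT0.le) t1 (Real.exp_pos _).le (by positivity)
    have h2 := mul_le_mul_of_nonneg_left h1 hC.le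
    refine h2.trans ?_
    have h3 := mul_le_mul_of_nonneg_right e1 hT0.le
    have h4 : Real.exp (-(19 * r)) / 2 * T = Real.exp (-(12 * r)) / 2 := by
      rw [hT, div_mul_eq_mul_div, ← Real.exp_add]
      congr 2
      ring
    rw [h4] at h3
    refine le_trans (le_of_eq ?_) h3
    ring
  have t3 : Q + 1 / (1 / r ^ 20) ≤ 2 * r ^ 20 := by
    rw [one_div_one_div]
    have h1 : r ^ 15 ≤ r ^ 20 := pow_le_pow_right₀ (by linarith) (by norm_num)
    linarith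
  have t4 : (δ ^ 7)⁻¹ * (T ^ 7)⁻¹ = Real.exp (-(14 * r)) := by
    rw [hδ, hT, ← Real.exp_nat_mul, ← Real.exp_nat_mul, ← Real.exp_neg, ← Real.exp_neg, ← Real.exp_add]
    congr 1
    push_cast
    ring
  have t5 : C * ((Q + 1 / (1 / r ^ 20)) * ((δ ^ 7)⁻¹ * (T ^ 7)⁻¹)) ≤ Real.exp (-(12 * r)) / 2 := by
    rw [t4]
    have h1 := mul_le_mul_of_nonneg_right t3 (Real.exp_pos (-(14 * r))).le
    have h2 := mul_le_mul_of_nonneg_left h1 hC.le
    refine h2.trans ?_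
    have h3 := mul_le_mul_of_nonneg_right e2 (Real.exp_pos (-(14 * r))).le
    have h4 : Real.exp (2 * r) / 2 * Real.exp (-(14 * r)) = Real.exp (-(12 * r)) / 2 := by
      rw [div_mul_eq_mul_div, ← Real.exp_add]
      congr 2
      ring
    rw [h4] at h3
    refine le_trans (le_of_eq ?_) h3
    ring
  rw [mul_add]
  linarith

/-- the pointwise estimate with abstract inputs -/
private theorem sw_core {C C' c c0 : ℝ}
    (hC : 0 < C) (hC' : 0 < C') (hc : 0 < c) (hc0 : 0 < c0) (hc0' : c0 ≤ 1)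
    {r : ℝ} (hr2 : 2 ≤ r) (hK : 9 ^ 11 * 27 / c0 ≤ r)
    (e1 : C * (r ^ 15 * Real.exp (-(c / 4 * r ^ 5))) ≤ Real.exp (-(19 * r)) / 2)
    (e2 : C * (2 * r ^ 20) ≤ Real.exp (2 * r) / 2)
    (e3 : C' * (2 + 4 * r ^ 20) ≤ Real.exp r)
    (smc' : ∀ (q : ℕ) [NeZero q] (χ : DirichletCharacter ℂ q), χ ≠ 1 →
    ∀ lam : ℝ, 0 < lam → lam ≤ 1 → (χ ^ 2 = 1 → lam ≤ ‖DirichletCharacter.LFunction χ 1‖) →
    ∀ x T L δ u : ℝ, 0 < x → x ≤ 1 / 2 → 1 ≤ T →
    (q : ℝ) * (2 * T + 5) ≤ Real.exp L → 0 < δ → δ ≤ 1 → 0 ≤ u →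
    ‖∑' n : ℕ, LSeries.term (Pool.Agent.H17.chiLam χ) (1 + x) n * Pool.Agent.H17.ZB.gS ((Real.log n - u) / δ)‖
      ≤ C * (L ^ 11 / lam * T * Real.exp (-(c * lam / L ^ 11 * u)) + (L ^ 11 / lam + 1 / x) * ((δ ^ 7)⁻¹ * (T ^ 7)⁻¹)))
    (shp' : ∀ c : ℕ → ℂ, (∀ n, ‖c n‖ ≤ ArithmeticFunction.vonMangoldt n) →
    ∀ x δ a b E : ℝ, 0 < x → x ≤ 1 → x * b ≤ 1 → 0 < δ → δ ≤ 1 / 2 → 0 ≤ a → a + 2 * δ ≤ b → 0 ≤ E →
    (∀ u ∈ Set.Icc a b, ‖∑' n : ℕ, LSeries.term c (1 + x) n * Pool.Agent.H17.ZB.gS ((Real.log n - u) / δ)‖ ≤ E) →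
    ‖∑ n ∈ Icc 1 ⌊Real.exp b⌋₊, c n‖ ≤ C' * (E * Real.exp b / δ + Real.exp a + (1 + b) * (δ * Real.exp b + 1)))
    {q : ℕ} [NeZero q] {χ : DirichletCharacter ℂ q} (hχ : χ ≠ 1) (hq : (q : ℝ) ≤ Real.exp r)
    (hlam : χ ^ 2 = 1 → c0 / (3 * r) ^ 3 ≤ ‖DirichletCharacter.LFunction χ 1‖)
    {N y : ℕ} (hN : Real.exp (r ^ 20) = N) (hy : y ≤ N) : ‖psiC χ y‖ ≤ N * Real.exp (-(4 * r)) := by
  have hr0 : 0 < r := by linarith
  have hr1 : 1 ≤ r := by linarith
  obtain ⟨l, hl⟩ : ∃ l, l = r ^ 20 := ⟨_, rfl⟩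
  have hlr : 2 ^ 19 * r ≤ l := by
    have h1 : (2 : ℝ) ^ 19 ≤ r ^ 19 := pow_le_pow_left₀ (by norm_num) hr2 19
    have h2 : r ^ 20 = r ^ 19 * r := by ring
    rw [hl, h2]
    exact mul_le_mul_of_nonneg_right h1 hr0.le
  have hl20 : 20 * r ≤ l := by
    have : (20 : ℝ) * r ≤ 2 ^ 19 * r := mul_le_mul_of_nonneg_right (by norm_num) hr0.le
    linarith
  have hl0 : 0 < l := by linarith
  have hl1 : 40 ≤ l := by linarith
  have hN0 : (0 : ℝ) < N := by rw [← hN]; exact Real.exp_pos _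
  have hyN : (y : ℝ) ≤ N := by exact_mod_cast hy
  have hexp7 : (7 : ℝ) ≤ Real.exp r := by
    have h1 : Real.exp 2 ≤ Real.exp r := Real.exp_le_exp.mpr hr2
    have h2 : Real.exp 2 = Real.exp 1 * Real.exp 1 := by
      rw [← Real.exp_add]
      norm_num
    have h3 := Real.exp_one_gt_d9
    nlinarith
  by_cases hcase : (y : ℝ) ≤ N * Real.exp (-(5 * r))
  · refine (sw_small χ y).trans ?_
    have h1 : Real.exp (-(4 * r)) = Real.exp r * Real.exp (-(5 * r)) := by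
      rw [← Real.exp_add]
      congr 1
      ring
    rw [h1]
    have h2 : 0 ≤ (N : ℝ) * Real.exp (-(5 * r)) := by positivity
    nlinarith
  · rw [not_le] at hcase
    have hy0 : (0 : ℝ) < y := lt_trans (by positivity) hcase
    set b := Real.log y with hb
    have heb : Real.exp b = y := Real.exp_log hy0
    have hbl : b ≤ l := by
      rw [hb, ← Real.log_exp l, hl, hN]
      exact Real.log_le_log hy0 hyN
    have hb2 : l / 2 ≤ b := by
      have h1 : Real.log (N * Real.exp (-(5 * r))) ≤ b := Real.log_le_log (by positivity) hcase.le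
      rw [Real.log_mul hN0.ne' (Real.exp_pos _).ne', ← hN, Real.log_exp, Real.log_exp, ← hl] at h1
      linarith
    -- parameters
    obtain ⟨δ, hδ⟩ : ∃ δ, δ = Real.exp (-(5 * r)) := ⟨_, rfl⟩
    obtain ⟨T, hT⟩ : ∃ T, T = Real.exp (7 * r) := ⟨_, rfl⟩
    have hδ0 : 0 < δ := by rw [hδ]; exact Real.exp_pos _
    have hδ1 : δ ≤ 1 / 2 := by
      have h1 : Real.exp (-(5 * r)) ≤ Real.exp (-r) := Real.exp_le_exp.mpr (by linarith)
      have h2 : Real.exp (-r) ≤ 1 / 2 := by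
        rw [Real.exp_neg, inv_eq_one_div]
        exact one_div_le_one_div_of_le (by norm_num) (by linarith)
      rw [hδ]
      linarith
    have hT1 : 1 ≤ T := by
      rw [hT]
      exact Real.one_le_exp (by linarith)
    have hL : (q : ℝ) * (2 * T + 5) ≤ Real.exp (9 * r) := by
      have h2 : 2 * T + 5 ≤ T * Real.exp r := by nlinarith
      have h3 : (q : ℝ) * (2 * T + 5) ≤ Real.exp r * (T * Real.exp r) :=
        mul_le_mul hq h2 (by positivity) (by positivity)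
      refine h3.trans (le_of_eq ?_)
      rw [hT, ← Real.exp_add, ← Real.exp_add]
      congr 1
      ring
    obtain ⟨lam, hlamd⟩ : ∃ lam, lam = c0 / (3 * r) ^ 3 := ⟨_, rfl⟩
    have hlam0 : 0 < lam := by rw [hlamd]; positivity
    have hlam1 : lam ≤ 1 := by
      rw [hlamd]
      have h1 : 1 ≤ (3 * r) ^ 3 := one_le_pow₀ (by linarith)
      rw [div_le_one (by positivity)]
      linarith
    obtain ⟨Q, hQd⟩ : ∃ Q, Q = (9 * r) ^ 11 / lam := ⟨_, rfl⟩
    have hQ0 : 0 < Q := by rw [hQd]; positivity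
    have hQinv : lam / (9 * r) ^ 11 = Q⁻¹ := by rw [hQd, inv_div]
    have hQ : Q ≤ r ^ 15 := by
      have h1 : Q = 9 ^ 11 * 27 / c0 * r ^ 14 := by
        rw [hQd, hlamd]
        field_simp
        ring
      have h2 : r ^ 15 = r * r ^ 14 := by ring
      rw [h1, h2]
      exact mul_le_mul_of_nonneg_right hK (by positivity)
    -- the bound for smooth sums
    have hE : ∀ u ∈ Set.Icc (l / 4) b, ‖∑' n : ℕ, LSeries.term (Pool.Agent.H17.chiLam χ) (1 + (1 / l : ℝ)) n *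
        Pool.Agent.H17.ZB.gS ((Real.log n - u) / δ)‖ ≤ Real.exp (-(12 * r)) := by
      intro u hu
      have hu0 : 0 ≤ u := by linarith [hu.1]
      have hx : (0 : ℝ) < 1 / l := by positivity
      have hx2 : 1 / l ≤ 1 / 2 := one_div_le_one_div_of_le (by norm_num) (by linarith)
      have h := smc' q χ hχ lam hlam0 hlam1 (by rw [hlamd]; exact hlam) (1 / l) T (9 * r) δ u hx hx2 hT1
        hL hδ0 (by linarith) hu0
      refine h.trans ?_
      have h2 : c * lam / (9 * r) ^ 11 * u = c * Q⁻¹ * u := by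
        rw [← hQinv]
        ring
      rw [h2, ← hQd, hl]
      exact sw_E hC hc hr2 hT hδ hQ0 hQ e1 e2 (by rw [← hl]; exact hu.1)
    have hmain := shp' (Pool.Agent.H17.chiLam χ) (sw_cl χ) (1 / l) δ (l / 4) b (Real.exp (-(12 * r)))
      (by positivity) (by
        rw [div_le_one hl0]
        linarith) (by
        rw [one_div, inv_mul_le_iff₀ hl0]
        linarith) hδ0 hδ1 (by positivity) (by linarith) (Real.exp_pos _).le hE
    rw [heb, Nat.floor_natCast, ← sw_psiC] at hmain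
    refine hmain.trans ?_
    -- final inequality
    obtain ⟨e, he⟩ : ∃ e, e = Real.exp (-(5 * r)) := ⟨_, rfl⟩
    have he0 : 0 < e := by rw [he]; exact Real.exp_pos _
    have f1 : Real.exp (-(12 * r)) * y / δ ≤ N * e := by
      rw [div_le_iff₀ hδ0, hδ, he]
      have h1 : Real.exp (-(12 * r)) ≤ Real.exp (-(5 * r)) * Real.exp (-(5 * r)) := by
        rw [← Real.exp_add, Real.exp_le_exp]
        linarith
      have h3 := mul_le_mul h1 hyN (Nat.cast_nonneg y) (by positivity)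
      linarith
    have f2 : Real.exp (l / 4) ≤ N * e := by
      rw [← hN, he, ← Real.exp_add, Real.exp_le_exp, ← hl]
      linarith
    have f3 : 1 ≤ N * e := by
      rw [← hN, he, ← Real.exp_add]
      apply Real.one_le_exp
      rw [← hl]
      linarith
    have f4 : (1 + b) * (δ * y + 1) ≤ 4 * l * (N * e) := by
      have h1 : 1 + b ≤ 2 * l := by linarith
      have h2 : δ * y + 1 ≤ 2 * (N * e) := by
        have h3 : δ * y ≤ N * e := by
          rw [hδ, he, mul_comm]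
          exact mul_le_mul_of_nonneg_right hyN (Real.exp_pos _).le
        linarith
      have h4 := mul_le_mul h1 h2 (by positivity) (by positivity)
      refine h4.trans (le_of_eq ?_)
      ring
    have f5 := mul_le_mul_of_nonneg_left (add_le_add (add_le_add f1 f2) f4) hC'.le
    refine f5.trans ?_
    have f6 : C' * (N * e + N * e + 4 * l * (N * e)) = C' * (2 + 4 * r ^ 20) * (N * e) := by
      rw [hl]
      ring
    have f7 : Real.exp (-(4 * r)) = Real.exp r * e := by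
      rw [he, ← Real.exp_add]
      congr 1
      ring
    rw [f6, f7]
    have h0 : 0 ≤ (N : ℝ) * e := by positivity
    calc C' * (2 + 4 * r ^ 20) * (N * e) ≤ Real.exp r * (N * e) := mul_le_mul_of_nonneg_right e3 h0
      _ = N * (Real.exp r * e) := by ring

/-- `C r^n exp(-b r) ≤ 1` for large `r` -/
private theorem sw_ev (K b : ℝ) (n : ℕ) (hK : 0 < K) (hb : 0 < b) :
    ∀ᶠ t : ℝ in Filter.atTop, K * t ^ n ≤ Real.exp (b * t) := by
  have h := tendsto_rpow_mul_exp_neg_mul_atTop_nhds_zero (n : ℝ) b hb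
  have hK' : 0 < 1 / K := by positivity
  filter_upwards [h.eventually (gt_mem_nhds hK'), Filter.eventually_gt_atTop 0] with t ht ht0
  rw [Real.rpow_natCast] at ht
  have h1 : t ^ n * Real.exp (-b * t) < 1 / K := ht
  have h2 : Real.exp (-b * t) = (Real.exp (b * t))⁻¹ := by
    rw [← Real.exp_neg]
    congr 1
    ring
  rw [h2, ← div_eq_mul_inv, div_lt_div_iff₀ (Real.exp_pos _) hK, one_mul] at h1
  linarith

private theorem sw_evs {C C' c : ℝ} (hC : 0 < C) (hC' : 0 < C') (hc : 0 < c) :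
    ∀ᶠ r : ℝ in Filter.atTop,
      C * (r ^ 15 * Real.exp (-(c / 4 * r ^ 5))) ≤ Real.exp (-(19 * r)) / 2 ∧
      C * (2 * r ^ 20) ≤ Real.exp (2 * r) / 2 ∧ C' * (2 + 4 * r ^ 20) ≤ Real.exp r := by
  have h1 := sw_ev (2 * C) 1 15 (by positivity) one_pos
  have h2 := sw_ev (4 * C) 2 20 (by positivity) two_pos
  have h3 := sw_ev (6 * C') 1 20 (by positivity) one_pos
  filter_upwards [h1, h2, h3, Filter.eventually_ge_atTop 1, Filter.eventually_ge_atTop (80 / c)]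
    with r a1 a2 a3 a4 a5
  have hr0 : 0 < r := by linarith
  refine ⟨?_, ?_, ?_⟩
  · have h4 : 80 ≤ c * r := by
      rw [div_le_iff₀ hc] at a5
      linarith
    have h5 : r ≤ r ^ 4 := by
      have := pow_le_pow_right₀ a4 (show 1 ≤ 4 by norm_num)
      simpa using this
    have h6 : 20 * r ≤ c / 4 * r ^ 5 := by
      have h7 : c / 4 * r ^ 5 = (c * r) * r ^ 4 / 4 := by ring
      rw [h7]
      have h8 : 80 * r ≤ (c * r) * r ^ 4 := mul_le_mul h4 h5 hr0.le (by positivity)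
      linarith
    have h9 : Real.exp (-(c / 4 * r ^ 5)) ≤ Real.exp (-(20 * r)) := Real.exp_le_exp.mpr (by linarith)
    have h10 : Real.exp (-(19 * r)) = Real.exp (1 * r) * Real.exp (-(20 * r)) := by
      rw [← Real.exp_add]
      congr 1
      ring
    rw [h10]
    have h11 : C * (r ^ 15 * Real.exp (-(c / 4 * r ^ 5))) ≤ C * (r ^ 15 * Real.exp (-(20 * r))) :=
      mul_le_mul_of_nonneg_left (mul_le_mul_of_nonneg_left h9 (by positivity)) hC.le
    have h12 := mul_le_mul_of_nonneg_right a1 (Real.exp_pos (-(20 * r))).le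
    linarith
  · linarith
  · have h4 : 1 ≤ r ^ 20 := one_le_pow₀ a4
    have h5 : C' * (2 + 4 * r ^ 20) ≤ C' * (6 * r ^ 20) := mul_le_mul_of_nonneg_left (by linarith) hC'.le
    rw [one_mul] at a3
    linarith

theorem swx : ∃ N0 : ℕ, ∀ N : ℕ, N0 ≤ N → ∃ P : ℕ, P.Prime ∧ (P : ℝ) ≤ Real.exp (rh N) ∧
    ∀ q : ℕ, 1 ≤ q → (q : ℝ) ≤ Real.exp (rh N) → ¬ P ∣ q →
    ∀ χ ∈ pc q, PM N χ ≤ N * Real.exp (-(4 * rh N)) := by
  obtain ⟨c0, hc0, hc0', hpage⟩ := page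
  obtain ⟨C, c, hC, hc, hc1, hsmc⟩ := smc
  obtain ⟨C', hC', hshp⟩ := shp
  have hev := ((sw_evs hC hC' hc).and ((Filter.eventually_ge_atTop (2 : ℝ)).and
    (Filter.eventually_ge_atTop (9 ^ 11 * 27 / c0))))
  obtain ⟨N1, hN1⟩ := Filter.eventually_atTop.mp (rh_tendsto.eventually hev)
  refine ⟨max N1 1, fun N hN => ?_⟩
  obtain ⟨⟨e1, e2, e3⟩, hr2, hK⟩ := hN1 N ((le_max_left _ _).trans hN)
  have hN1' : 1 ≤ N := (le_max_right _ _).trans hN
  have hNpos : (0 : ℝ) < N := by exact_mod_cast hN1'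
  obtain ⟨r, hr⟩ : ∃ r, r = rh N := ⟨_, rfl⟩
  rw [← hr] at e1 e2 e3 hr2 hK ⊢
  have hexpN : Real.exp (r ^ 20) = N := by rw [hr, rh_pow, Real.exp_log hNpos]
  -- the core, given the lower bound for the real characters
  have core : ∀ q : ℕ, 1 ≤ q → (q : ℝ) ≤ Real.exp r →
      (∀ (_ : NeZero q) (χ : DirichletCharacter ℂ q), χ ∈ pc q → χ ^ 2 = 1 →
        c0 / (3 * r) ^ 3 ≤ ‖DirichletCharacter.LFunction χ 1‖) →
      ∀ χ ∈ pc q, PM N χ ≤ N * Real.exp (-(4 * r)) := by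
    intro q hq hqe hreal χ hχ
    have hq0 : NeZero q := ⟨by omega⟩
    obtain ⟨hprim, hne⟩ : χ.IsPrimitive ∧ χ ≠ 1 := by
      simpa only [pc, Finset.mem_filter, Finset.mem_univ, true_and] using hχ
    unfold PM
    refine mx_le fun y hy => ?_
    exact sw_core hC hC' hc hc0 hc0' hr2 hK e1 e2 e3 hsmc hshp hne hqe
      (fun h2 => hreal hq0 χ hχ h2) hexpN hy
  by_cases hex : ∃ (q1 : ℕ) (h0 : NeZero q1) (χ1 : DirichletCharacter ℂ q1), (q1 : ℝ) ≤ Real.exp r ∧ χ1 ∈ pc q1 ∧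
      χ1 ^ 2 = 1 ∧ ‖DirichletCharacter.LFunction χ1 1‖ < c0 / (3 * r) ^ 3
  · obtain ⟨q1, h0, χ1, hq1, hχ1, hsq1, hlt⟩ := hex
    obtain ⟨hprim1, hne1⟩ : χ1.IsPrimitive ∧ χ1 ≠ 1 := by
      simpa only [pc, Finset.mem_filter, Finset.mem_univ, true_and] using hχ1
    have hq11 : q1 ≠ 1 := by
      rintro rfl
      exact hne1 (DirichletCharacter.level_one χ1)
    refine ⟨q1.minFac, Nat.minFac_prime hq11, ?_, fun q hq hqe hdiv => ?_⟩
    · refine le_trans ?_ hq1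
      exact_mod_cast Nat.minFac_le (Nat.pos_of_ne_zero (NeZero.ne q1))
    refine core q hq hqe ?_
    intro hq0 χ hχ hsq
    obtain ⟨hprim, hne⟩ : χ.IsPrimitive ∧ χ ≠ 1 := by
      simpa only [pc, Finset.mem_filter, Finset.mem_univ, true_and] using hχ
    have hqq : q1 ≠ q := by
      rintro rfl
      exact hdiv (Nat.minFac_dvd _)
    have h4 : 4 * ((q1 : ℝ) * q) ≤ Real.exp (3 * r) := by
      have h5 : (4 : ℝ) ≤ Real.exp r := by
        have h1 : Real.exp 2 ≤ Real.exp r := Real.exp_le_exp.mpr hr2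
        have h2 : Real.exp 2 = Real.exp 1 * Real.exp 1 := by
          rw [← Real.exp_add]
          norm_num
        have h3 := Real.exp_one_gt_d9
        nlinarith
      have h6 : (q1 : ℝ) * q ≤ Real.exp r * Real.exp r :=
        mul_le_mul hq1 hqe (Nat.cast_nonneg q) (Real.exp_pos _).le
      have h7 : Real.exp (3 * r) = Real.exp r * (Real.exp r * Real.exp r) := by
        rw [← Real.exp_add, ← Real.exp_add]
        congr 1
        ring
      rw [h7]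
      exact mul_le_mul h5 h6 (by positivity) (Real.exp_pos _).le
    rcases hpage (3 * r) q1 q χ1 χ hprim1 hprim hne1 hne hsq1 hsq hqq h4 with h | h
    · exact absurd hlt (not_lt.mpr h)
    · exact h
  · refine ⟨2, Nat.prime_two, ?_, fun q hq hqe _ => ?_⟩
    · have h1 := Real.add_one_le_exp r
      push_cast
      linarith
    refine core q hq hqe ?_
    intro hq0 χ hχ hsq
    by_contra hcon
    exact hex ⟨q, hq0, χ, hqe, hχ, hsq, not_le.mp hcon⟩

end BVX
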