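import Pool.Agent.H17.BX.Psx
import Pool.Agent.H17.BV.Tht

/-!
# BX / THX: the same for `θ` (adapt `bv_theta` of `Pool/Agent/H17/BV/Tht.lean`; from PSX)
-/

open Finset H69LB

namespace BVX

open BVL

theorem Thx_sum {ε C : ℝ} (hε : 0 < ε) {C1 : ℝ} (hC1 : 0 ≤ C1)
    (hW : ∀ q : ℕ, 1 ≤ q → |C| ^ q.primeFactors.card / (Nat.totient q : ℝ) ≤ C1 * (q : ℝ) ^ (-1 + ε / 2))
    {N : ℕ} (hN9 : 9 ≤ N) :
    ∑ q ∈ Icc 1 ⌊(N : ℝ) ^ (1 / 2 - ε)⌋₊, |C| ^ q.primeFactors.card ≤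
        (N : ℝ) ^ (1 / 2 - ε) * (C1 * (N : ℝ) ^ (ε / 2)) := by
  have hNr : (9 : ℝ) ≤ N := by exact_mod_cast hN9
  have h3 : ∀ q ∈ Icc 1 ⌊(N : ℝ) ^ (1 / 2 - ε)⌋₊, |C| ^ q.primeFactors.card ≤ C1 * (N : ℝ) ^ (ε / 2) := by
    intro q hq
    rw [Finset.mem_Icc] at hq
    have hq0 : (0 : ℝ) < q := by exact_mod_cast hq.1
    have hphi : (0 : ℝ) < (Nat.totient q : ℝ) := by exact_mod_cast Nat.totient_pos.mpr hq.1
    have hphi2 : (Nat.totient q : ℝ) ≤ q := by exact_mod_cast Nat.totient_le q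
    have hqN : (q : ℝ) ≤ N := by
      have h4 : (q : ℝ) ≤ (N : ℝ) ^ (1 / 2 - ε) := by
        exact (Nat.le_floor_iff (by positivity)).mp hq.2
      refine h4.trans ?_
      calc (N : ℝ) ^ (1 / 2 - ε) ≤ (N : ℝ) ^ (1 : ℝ) :=
            Real.rpow_le_rpow_of_exponent_le (by linarith) (by linarith)
        _ = N := Real.rpow_one _
    have h5 := hW q hq.1
    rw [div_le_iff₀ hphi] at h5
    calc |C| ^ q.primeFactors.card ≤ C1 * (q : ℝ) ^ (-1 + ε / 2) * (Nat.totient q : ℝ) := h5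
      _ ≤ C1 * (q : ℝ) ^ (-1 + ε / 2) * q := mul_le_mul_of_nonneg_left hphi2 (by positivity)
      _ = C1 * (q : ℝ) ^ (ε / 2) := by
          rw [mul_assoc]
          congr 1
          calc (q : ℝ) ^ (-1 + ε / 2) * q = (q : ℝ) ^ (-1 + ε / 2) * (q : ℝ) ^ (1 : ℝ) := by rw [Real.rpow_one]
            _ = (q : ℝ) ^ (-1 + ε / 2 + 1) := (Real.rpow_add hq0 _ _).symm
            _ = _ := by congr 1; ring
      _ ≤ C1 * (N : ℝ) ^ (ε / 2) := by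
          apply mul_le_mul_of_nonneg_left _ hC1
          exact Real.rpow_le_rpow hq0.le hqN (by linarith)
  refine (Finset.sum_le_sum h3).trans ?_
  rw [Finset.sum_const, Nat.card_Icc, Nat.add_sub_cancel, nsmul_eq_mul]
  apply mul_le_mul_of_nonneg_right _ (by positivity)
  exact Nat.floor_le (by positivity)

/-- growth of `exp (rh N / 10)` -/
theorem Thx_grow {ε : ℝ} (hε : 0 < ε) {K : ℝ} (_hK : 0 ≤ K) : ∃ N0 : ℕ, ∀ N : ℕ, N0 ≤ N →
    Real.exp (-(rh N / 8)) ≤ 1 / 2 * Real.exp (-(rh N / 10)) ∧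
    K * Real.log N * (N : ℝ) ^ (-(ε / 2)) ≤ 1 / 2 * Real.exp (-(rh N / 10)) := by
  obtain ⟨N1, h1⟩ := bv_theta_grow (2 * K) 1 (show 0 < ε / 4 by linarith)
  have h2 := rh_tendsto.eventually_ge_atTop (max 40 (2 / (5 * ε)))
  obtain ⟨N2, hN2⟩ := Filter.eventually_atTop.mp h2
  refine ⟨max (max N1 N2) 1, fun N hN => ?_⟩
  have g1 := h1 N (by omega)
  have g2 := hN2 N (by omega)
  have hN1 : 1 ≤ N := by omega
  have hN0 : (0 : ℝ) < N := by exact_mod_cast hN1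
  have hr40 : 40 ≤ rh N := (le_max_left _ _).trans g2
  have hrε : 2 / (5 * ε) ≤ rh N := (le_max_right _ _).trans g2
  constructor
  · have h3 : Real.exp (-(rh N / 8)) = Real.exp (-(rh N / 40)) * Real.exp (-(rh N / 10)) := by
      rw [← Real.exp_add]; congr 1; ring
    rw [h3]
    refine mul_le_mul_of_nonneg_right ?_ (Real.exp_pos _).le
    have h4 : Real.exp (-(rh N / 40)) ≤ Real.exp (-1) := Real.exp_le_exp.2 (by linarith)
    refine h4.trans ?_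
    rw [Real.exp_neg, inv_le_comm₀ (Real.exp_pos _) (by norm_num)]
    have := Real.add_one_le_exp (1 : ℝ)
    norm_num
    linarith
  · rw [pow_one] at g1
    have hrh0 : 0 < rh N := by linarith
    have h5 : rh N / 10 ≤ ε / 4 * Real.log N := by
      rw [← rh_pow N]
      have h6 : rh N ≤ rh N ^ 19 := by
        calc rh N = rh N ^ 1 := (pow_one _).symm
          _ ≤ rh N ^ 19 := pow_le_pow_right₀ (by linarith) (by norm_num)
      have h7 : 2 / (5 * ε) ≤ rh N ^ 19 := hrε.trans h6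
      rw [div_le_iff₀ (by positivity)] at h7
      have h8 : rh N ^ 20 = rh N * rh N ^ 19 := by ring
      rw [h8]
      nlinarith
    have h9 : Real.exp (rh N / 10) ≤ (N : ℝ) ^ (ε / 4) := by
      rw [Real.rpow_def_of_pos hN0]
      exact Real.exp_le_exp.2 (by linarith)
    rw [Real.exp_neg, mul_comm (1 / 2 : ℝ), ← div_eq_inv_mul, le_div_iff₀ (Real.exp_pos _)]
    have h10 : (N : ℝ) ^ (-(ε / 2)) * ((N : ℝ) ^ (ε / 4) * (N : ℝ) ^ (ε / 4)) = 1 := by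
      rw [← Real.rpow_add hN0, ← Real.rpow_add hN0]
      rw [show (-(ε / 2) + (ε / 4 + ε / 4) : ℝ) = 0 by ring, Real.rpow_zero]
    have h11 : 0 ≤ Real.log (N : ℝ) := Real.log_natCast_nonneg N
    calc K * Real.log N * (N : ℝ) ^ (-(ε / 2)) * Real.exp (rh N / 10)
        ≤ (1 / 2 * (N : ℝ) ^ (ε / 4)) * (N : ℝ) ^ (-(ε / 2)) * (N : ℝ) ^ (ε / 4) := by
          refine mul_le_mul ?_ h9 (Real.exp_pos _).le (by positivity)
          refine mul_le_mul_of_nonneg_right ?_ (by positivity)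
          linarith
      _ = 1 / 2 * ((N : ℝ) ^ (-(ε / 2)) * ((N : ℝ) ^ (ε / 4) * (N : ℝ) ^ (ε / 4))) := by ring
      _ = 1 / 2 := by rw [h10, mul_one]

theorem bvx_theta {ε : ℝ} (hε : 0 < ε) (C : ℝ) : ∃ N0 : ℕ, ∀ N : ℕ, N0 ≤ N → ∃ P : ℕ, P.Prime ∧ (P : ℝ) ≤ Real.exp (rh N) ∧ ∃ E : ℕ → ℝ, (∀ q, 0 ≤ E q) ∧
    (∀ q : ℕ, 1 ≤ q → (q : ℝ) ≤ (N : ℝ) ^ (1 / 2 - ε) → ¬ P ∣ q → ∀ a : ℕ, Nat.Coprime a q → ∀ y : ℕ, y ≤ N →
      |∑ p ∈ (Icc 1 y).filter (fun p => p.Prime ∧ p ≡ a [MOD q]), Real.log p -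
        y / (Nat.totient q : ℝ)| ≤ E q) ∧
    ∑ q ∈ (Icc 1 ⌊(N : ℝ) ^ (1 / 2 - ε)⌋₊).filter (fun q => ¬ P ∣ q), |C| ^ q.primeFactors.card * E q ≤
      N * Real.exp (-(rh N / 10)) := by
  obtain ⟨N1, h1⟩ := bvx_psi hε C
  obtain ⟨C1, hC1, hW⟩ := omega_bound (abs_nonneg C) (show 0 < ε / 2 by linarith)
  obtain ⟨N2, h2⟩ := Thx_grow hε (show 0 ≤ 2 * C1 by linarith)
  refine ⟨max (max N1 N2) 9, fun N hN => ?_⟩
  obtain ⟨P, hP, hPs, E, hE0, hE1, hE2⟩ := h1 N (by omega)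
  obtain ⟨hg1, hg2⟩ := h2 N (by omega)
  have hN9 : 9 ≤ N := by omega
  have hNr : (9 : ℝ) ≤ N := by exact_mod_cast hN9
  have hN0 : (0 : ℝ) < N := by linarith
  have hl0 : 0 ≤ Real.log (N : ℝ) := Real.log_natCast_nonneg N
  refine ⟨P, hP, hPs, fun q => E q + 2 * Real.sqrt N * Real.log N, ?_, ?_, ?_⟩
  · intro q
    have := hE0 q
    positivity
  · intro q hq hqN hPq a ha y hy
    have h3 := hE1 q hq hqN hPq a ha y hy
    have h4 := bv_theta_diff q a y N hy (by omega)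
    have h5 := abs_sub_le (∑ p ∈ (Icc 1 y).filter (fun p => p.Prime ∧ p ≡ a [MOD q]), Real.log p)
      (∑ n ∈ (Icc 1 y).filter (fun n => n ≡ a [MOD q]), ArithmeticFunction.vonMangoldt n) (y / (Nat.totient q : ℝ))
    rw [abs_sub_comm] at h4
    show _ ≤ E q + 2 * Real.sqrt N * Real.log N
    linarith
  · have hsum := Thx_sum hε hC1 hW hN9
    have hb : (N : ℝ) ^ (1 / 2 - ε) * (C1 * (N : ℝ) ^ (ε / 2)) * (2 * Real.sqrt N * Real.log N) =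
        N * (2 * C1 * Real.log N * (N : ℝ) ^ (-(ε / 2))) := by
      rw [Real.sqrt_eq_rpow]
      have e1 : (N : ℝ) ^ (1 / 2 - ε) * (N : ℝ) ^ (ε / 2) * (N : ℝ) ^ (1 / 2 : ℝ) = N * (N : ℝ) ^ (-(ε / 2)) := by
        have e2 : (N : ℝ) * (N : ℝ) ^ (-(ε / 2)) = (N : ℝ) ^ (1 + -(ε / 2)) := by
          rw [Real.rpow_add hN0, Real.rpow_one]
        rw [e2, ← Real.rpow_add hN0, ← Real.rpow_add hN0]
        congr 1
        ring
      calc (N : ℝ) ^ (1 / 2 - ε) * (C1 * (N : ℝ) ^ (ε / 2)) * (2 * (N : ℝ) ^ (1 / 2 : ℝ) * Real.log N)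
          = (N : ℝ) ^ (1 / 2 - ε) * (N : ℝ) ^ (ε / 2) * (N : ℝ) ^ (1 / 2 : ℝ) * (2 * C1 * Real.log N) := by ring
        _ = N * (N : ℝ) ^ (-(ε / 2)) * (2 * C1 * Real.log N) := by rw [e1]
        _ = _ := by ring
    have hfil : ∑ q ∈ (Icc 1 ⌊(N : ℝ) ^ (1 / 2 - ε)⌋₊).filter (fun q => ¬ P ∣ q), |C| ^ q.primeFactors.card ≤
        ∑ q ∈ Icc 1 ⌊(N : ℝ) ^ (1 / 2 - ε)⌋₊, |C| ^ q.primeFactors.card :=
      Finset.sum_le_sum_of_subset_of_nonneg (Finset.filter_subset _ _) fun q _ _ => by positivity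
    calc ∑ q ∈ (Icc 1 ⌊(N : ℝ) ^ (1 / 2 - ε)⌋₊).filter (fun q => ¬ P ∣ q),
          |C| ^ q.primeFactors.card * (E q + 2 * Real.sqrt N * Real.log N)
        = ∑ q ∈ (Icc 1 ⌊(N : ℝ) ^ (1 / 2 - ε)⌋₊).filter (fun q => ¬ P ∣ q), |C| ^ q.primeFactors.card * E q +
          (∑ q ∈ (Icc 1 ⌊(N : ℝ) ^ (1 / 2 - ε)⌋₊).filter (fun q => ¬ P ∣ q), |C| ^ q.primeFactors.card) *
            (2 * Real.sqrt N * Real.log N) := by
          rw [Finset.sum_mul, ← Finset.sum_add_distrib]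
          exact Finset.sum_congr rfl (fun q _ => by ring)
      _ ≤ N * Real.exp (-(rh N / 8)) + (N : ℝ) ^ (1 / 2 - ε) * (C1 * (N : ℝ) ^ (ε / 2)) * (2 * Real.sqrt N * Real.log N) :=
          add_le_add hE2 (mul_le_mul_of_nonneg_right (hfil.trans hsum) (by positivity))
      _ = N * (Real.exp (-(rh N / 8)) + 2 * C1 * Real.log N * (N : ℝ) ^ (-(ε / 2))) := by rw [hb]; ring
      _ ≤ N * Real.exp (-(rh N / 10)) := by
          refine mul_le_mul_of_nonneg_left ?_ hN0.le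
          linarith

end BVX
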